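import Pool.Agent.TH735.AQ.Defs

/-!
# Line bundles which are torsion on the kernel of the Chern form
-/

set_option autoImplicit false

namespace Pool.Agent.TH735.AQ

open Pool.Agent.W594.SYZ2

/-- Let `K` be the kernel of the form `H` and `Λ` the lattice of `Γ`. Some power `L ^ m`, `m ≥ 1`, is
trivial on the complex torus `K / (Λ ∩ K)`: there is a nowhere vanishing holomorphic function
`g` (the values on `K` are what matters) which is a section of `L ^ m` over this torus. -/
def TorsionOnKernel {V : Type*} [NormedAddCommGroup V] [NormedSpace ℂ V]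
    {Γ : Subgroup (V ≃ᵃ[ℂ] V)} (L : LineBundle Γ) (H : V → V → ℂ) : Prop :=
  ∃ m : ℕ, 1 ≤ m ∧ ∃ g : V → ℂ, Differentiable ℂ g ∧ (∀ v, g v ≠ 0) ∧
    ∀ (b : V) (hb : AffineEquiv.constVAdd ℂ V b ∈ Γ), (∀ w, H b w = 0) →
      ∀ v, (∀ w, H v w = 0) → g (b + v) = L.e ⟨_, hb⟩ v ^ m * g v

end Pool.Agent.TH735.AQ
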