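import Pool.Agent.TH735.AQ.Uniq
import Pool.Agent.TH735.AQ.KerDefs

/-!
# The criterion for semiampleness
-/

set_option autoImplicit false

namespace Pool.Agent.TH735.AQ

open Pool.Agent.W594.SYZ2 Pool.Agent.W594.SYZ2.TQ

variable {V : Type*} [NormedAddCommGroup V] [NormedSpace ℂ V] [FiniteDimensional ℂ V]
  {Γ : Subgroup (V ≃ᵃ[ℂ] V)} {L : LineBundle Γ} {H : V → V → ℂ} {F : V → ℂ}

theorem chi_norm (hH : IsHermitian H) (hF : IsPot L H F) {b : V} (hb : b ∈ latt Γ)
    (hbK : b ∈ ker hH) : ‖chi L F b‖ = 1 := by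
  have h1 := tw_norm hF (tr b hb) 0
  rw [tr_apply, add_zero, hbK b, h_zero_left hH, sub_self, mul_zero, Real.exp_zero,
    ← chi_eq hb] at h1
  exact (pow_eq_one_iff_of_nonneg (norm_nonneg _) two_ne_zero).1 h1

theorem torsion_of_semiample (hΓ : IsTorusQuotient Γ) (hc : IsChernForm L H)
    (hs : IsSemiample L) : TorsionOnKernel L H := by
  obtain ⟨n, Δ, π, hfib, hind⟩ := hs
  obtain ⟨-, hker⟩ := nef_of_induces hΓ hc hfib hind
  obtain ⟨m, hm, A, HA, -, -, h, hh, hne, heq⟩ := hind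
  refine ⟨m, hm, fun v => (h v)⁻¹, hh.inv hne, fun v => inv_ne_zero (hne v), ?_⟩
  intro b hb hbK v _
  have hπb : π b = 0 := (hker b).2 hbK
  have h1 := heq ⟨_, hb⟩ 1 (fun v => by
    change π v = π (b + v)
    rw [map_add, hπb, zero_add]) v
  rw [A.stab 1 (π v) rfl, one_mul] at h1
  change h (b + v) * L.e ⟨_, hb⟩ v ^ m = h v at h1
  change (h (b + v))⁻¹ = L.e ⟨_, hb⟩ v ^ m * (h v)⁻¹
  rw [← h1, mul_inv, mul_left_comm, mul_inv_cancel₀ (pow_ne_zero m (L.ne_zero _ _)), mul_one]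

theorem semiample_of_torsion (hΓ : IsTorusQuotient Γ) (hc : IsChernForm L H) (hn : IsNefForm H)
    (ht : TorsionOnKernel L H) : IsSemiample L := by
  obtain ⟨k, P, -, -, n, Δ, π, hker, hfib, -⟩ := numerical hΓ hc hn
  obtain ⟨hH, F, hF, hFe⟩ := hc
  have hpot : IsPot L H F := ⟨hF, hFe⟩
  obtain ⟨m, hm, g, hg, hgne, hgeq⟩ := ht
  have : FiniteDimensional ℝ V := FiniteDimensional.complexToReal V
  -- the lattice vectors in `K` span `K`
  let T : AddSubgroup (Fin n → ℂ) := (latt Γ).map π.toAddMonoidHom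
  have hT : (T : Set (Fin n → ℂ)) ⊆ (latt Δ : Set (Fin n → ℂ)) := by
    rintro _ ⟨b, hb, rfl⟩
    obtain ⟨δ, hδ, h⟩ := hfib.maps _ (mem_latt.1 hb)
    change AffineEquiv.constVAdd ℂ (Fin n → ℂ) (π b) ∈ Δ
    have h1 : AffineEquiv.constVAdd ℂ (Fin n → ℂ) (π b) = δ := by
      apply AffineEquiv.ext
      intro w
      obtain ⟨v, rfl⟩ := hfib.surj w
      rw [h v]
      change π b + π v = π (b + v)
      rw [map_add]
    rw [h1]
    exact hδ
  have hTd : DiscreteTopology T := by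
    have h1 : DiscreteTopology (latt Δ : Set (Fin n → ℂ)) := hfib.base.discrete
    exact DiscreteTopology.of_subset h1 hT
  have hsp := span_ker (V := V) (W := Fin n → ℂ) (latt Γ) hΓ.discrete hΓ.span_top T hTd
    (π.restrictScalars ℝ) hfib.surj (fun w => Iff.rfl)
  let K : Submodule ℂ V := ker hH
  let SK : AddSubgroup K := (latt Γ).comap K.subtype.toAddMonoidHom
  have hmap : (Submodule.span ℝ (SK : Set K)).map (K.subtype.restrictScalars ℝ)
      = Submodule.span ℝ {b | b ∈ latt Γ ∧ π b = 0} := by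
    rw [Submodule.map_span]
    congr 1
    ext x
    constructor
    · rintro ⟨y, hy, rfl⟩
      exact ⟨hy, (hker y.1).2 y.2⟩
    · rintro ⟨hx, hx0⟩
      exact ⟨⟨x, (hker x).1 hx0⟩, hx, rfl⟩
  have hspan : Submodule.span ℝ (SK : Set K) = ⊤ := by
    rw [eq_top_iff]
    rintro ⟨x, hx⟩ -
    have h1 : x ∈ Submodule.span ℝ {b | b ∈ latt Γ ∧ π b = 0} := by
      have h2 : x ∈ LinearMap.ker (π.restrictScalars ℝ) := (hker x).2 hx
      rw [← hsp] at h2
      exact h2
    rw [← hmap] at h1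
    obtain ⟨y, hy, hyx⟩ := h1
    have h2 : y = ⟨x, hx⟩ := Subtype.ext hyx
    rwa [← h2]
  have : ProperSpace K := FiniteDimensional.proper ℂ K
  let u : K → ℂ := fun v => g v * Complex.exp (-(m * F v))
  have hu : Differentiable ℂ u := by
    have h1 : Differentiable ℂ fun v : V => g v * Complex.exp (-(m * F v)) :=
      hg.mul (hF.const_mul (m : ℂ)).neg.cexp
    have h2 : Differentiable ℂ fun v : K => (v : V) := K.subtypeL.differentiable
    exact h1.comp h2
  have hueq : ∀ (b : K) (_ : (b : V) ∈ latt Γ) (v : K), u (b + v) = chi L F b ^ m * u v := by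
    intro b hb v
    have h1 := hgeq b hb b.2 v v.2
    have h2 := tw_tr_ker hH hpot hb b.2 (v : V)
    simp only [u]
    rw [← h2, tw, tr_apply, mul_pow, ← Complex.exp_nat_mul]
    change g ((b : V) + v) * Complex.exp (-(m * F ((b : V) + v))) = _
    rw [h1]
    have h3 : Complex.exp (-(m * F ((b : V) + v)))
        = Complex.exp (m * (F v - F ((b : V) + v))) * Complex.exp (-(m * F v)) := by
      rw [← Complex.exp_add]
      congr 1
      ring
    rw [h3]
    change _ = L.e (tr (b : V) hb) v ^ m * _ * _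
    have h4 : (⟨_, hb⟩ : Γ) = tr (b : V) hb := rfl
    rw [h4]
    ring
  obtain ⟨C, hC⟩ := cobounded SK hspan
  have hbd : Bornology.IsBounded (Set.range u) := by
    have hK : IsCompact (Metric.closedBall (0 : K) C) := isCompact_closedBall _ _
    obtain ⟨R, hR⟩ := (isBounded_iff_forall_norm_le.1 (hK.image hu.continuous).isBounded)
    rw [isBounded_iff_forall_norm_le]
    refine ⟨R, ?_⟩
    rintro _ ⟨v, rfl⟩
    obtain ⟨b, hb, hbC⟩ := hC v
    have hb' : (b : V) ∈ latt Γ := hb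
    have h1 : ‖u (b + v)‖ = ‖u v‖ := by
      rw [hueq b hb' v, norm_mul, norm_pow, chi_norm hH hpot hb' b.2, one_pow, one_mul]
    rw [← h1]
    exact hR _ ⟨b + v, by rwa [mem_closedBall_zero_iff], rfl⟩
  have hroot : ∀ b ∈ latt Γ, b ∈ ker hH → chi L F b ^ m = 1 := by
    intro b hb hbK
    have h1 := hueq ⟨b, hbK⟩ hb 0
    have h2 : u (⟨b, hbK⟩ + 0) = u 0 := hu.apply_eq_apply_of_bounded hbd _ _
    rw [h2] at h1
    have h3 : u 0 ≠ 0 := mul_ne_zero (hgne _) (Complex.exp_ne_zero _)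
    exact (mul_right_cancel₀ h3 ((one_mul _).trans h1)).symm
  obtain ⟨n', Δ', π', -, h2, h3⟩ := exists_sit hΓ hH hpot hn hm hroot
  exact ⟨n', Δ', π', h2, h3⟩

/-- The Chern form of `L ^ k ⊗ P`, `P` flat. -/
theorem chern_tensor (hc : IsChernForm L H) {P : LineBundle Γ} (hP : IsFlat P) (k : ℕ) :
    IsChernForm (tensor (L.pow k) P) (fun v w => (k : ℂ) * H v w) := by
  obtain ⟨hH, F, hF, hFe⟩ := hc
  have hMr : ∀ z : ℂ, ((k : ℂ) * z).re = (k : ℝ) * z.re := fun z => by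
    have : ((k : ℕ) : ℂ) = ((k : ℝ) : ℂ) := by push_cast; rfl
    rw [this, Complex.re_ofReal_mul]
  refine ⟨⟨fun u v w => ?_, fun a v w => ?_, fun v w => ?_⟩, fun v => (k : ℂ) * F v,
    hF.const_mul _, fun γ v => ?_⟩
  · rw [hH.add_left, mul_add]
  · rw [hH.smul_left]
    ring
  · rw [map_mul, ← hH.symm, Complex.conj_natCast]
  · have h1 : ‖(tensor (L.pow k) P).e γ v‖ ^ 2 = (‖L.e γ v‖ ^ 2) ^ k := by
      change ‖L.e γ v ^ k * P.e γ v‖ ^ 2 = _
      rw [norm_mul, hP.2 γ v, mul_one, norm_pow, ← pow_mul, ← pow_mul, mul_comm]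
    rw [h1, hFe, ← Real.exp_nat_mul]
    simp only [hMr]
    congr 1
    ring

/-- Uniqueness of the fibration, and nefness. -/
theorem kernel_of_induces (hΓ : IsTorusQuotient Γ) (hc : IsChernForm L H) {P : LineBundle Γ}
    (hP : IsFlat P) {k : ℕ} (hk : 1 ≤ k) {n : ℕ} {Δ : Subgroup ((Fin n → ℂ) ≃ᵃ[ℂ] (Fin n → ℂ))}
    {π : V →ₗ[ℂ] (Fin n → ℂ)} (hfib : IsFibration Γ Δ π)
    (hind : Induces (tensor (L.pow k) P) Δ π) :
    IsNefForm H ∧ ∀ v, π v = 0 ↔ ∀ w, H v w = 0 := by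
  obtain ⟨h1, h2⟩ := nef_of_induces hΓ (chern_tensor hc hP k) hfib hind
  have hk0 : (k : ℂ) ≠ 0 := by
    have : k ≠ 0 := by omega
    exact_mod_cast this
  have hkpos : (0 : ℝ) < k := by exact_mod_cast hk
  constructor
  · intro v
    have h3 := h1 v
    have : ((k : ℕ) : ℂ) = ((k : ℝ) : ℂ) := by push_cast; rfl
    rw [this, Complex.re_ofReal_mul] at h3
    exact nonneg_of_mul_nonneg_right h3 hkpos
  · intro v
    rw [h2 v]
    refine forall_congr' fun w => ?_
    rw [mul_eq_zero]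
    exact ⟨fun h => h.resolve_left hk0, Or.inr⟩

end Pool.Agent.TH735.AQ
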