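import Pool.Agent.W594.SYZ.TQDefs

/-!
# Nef line bundles on quotients of complex tori by finite groups: definitions
-/

set_option autoImplicit false

namespace Pool.Agent.TH735.AQ

open Pool.Agent.W594.SYZ2

variable {V W : Type*} [NormedAddCommGroup V] [NormedSpace ℂ V] [NormedAddCommGroup W]
  [NormedSpace ℂ W]

/-- `H^1(X, O_X) = 0` for `X = V / Γ`. By Dolbeault's theorem `H^1(X, O_X)` is the space of
conjugate-linear functionals on `V` that are invariant under the linear parts of `Γ`. -/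
def HOneZero (Γ : Subgroup (V ≃ᵃ[ℂ] V)) : Prop :=
  ∀ ℓ : V →ₛₗ[starRingEnd ℂ] ℂ, (∀ γ ∈ Γ, ∀ w, ℓ (γ.linear w) = ℓ w) → ℓ = 0

/-- The linear map `π : V → W` induces a fibration `f : X = V / Γ → B = W / Δ`: `π` is surjective,
`Δ` is the group of the transformations of `W` induced by those of `Γ`, so that `f` is a
well-defined surjective holomorphic map whose fibres are the images of the affine subspaces
`π⁻¹(w)`, hence connected, and `B` is a torus quotient. -/
structure IsFibration (Γ : Subgroup (V ≃ᵃ[ℂ] V)) (Δ : Subgroup (W ≃ᵃ[ℂ] W))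
    (π : V →ₗ[ℂ] W) : Prop where
  surj : Function.Surjective π
  maps : ∀ γ ∈ Γ, ∃ δ ∈ Δ, ∀ v, δ (π v) = π (γ v)
  onto : ∀ δ ∈ Δ, ∃ γ ∈ Γ, ∀ v, δ (π v) = π (γ v)
  base : IsTorusQuotient Δ

/-- `L` is semiample: there is a fibration `f : X → B` onto a torus quotient such that some power
`L ^ m`, `m ≥ 1`, is isomorphic to the pullback `f^* A` of an ample line bundle `A` on `B`. (`B` may be
a point; then `L` is torsion.) -/
def IsSemiample {Γ : Subgroup (V ≃ᵃ[ℂ] V)} (L : LineBundle Γ) : Prop :=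
  ∃ (n : ℕ) (Δ : Subgroup ((Fin n → ℂ) ≃ᵃ[ℂ] (Fin n → ℂ))) (π : V →ₗ[ℂ] (Fin n → ℂ)),
    IsFibration Γ Δ π ∧ Induces L Δ π

/-- The tensor product of two line bundles. -/
def tensor {Γ : Subgroup (V ≃ᵃ[ℂ] V)} (L M : LineBundle Γ) : LineBundle Γ where
  e := fun γ v => L.e γ v * M.e γ v
  holo := fun γ => (L.holo γ).mul (M.holo γ)
  ne_zero := fun γ v => mul_ne_zero (L.ne_zero γ v) (M.ne_zero γ v)
  mul := fun γ δ v => by rw [L.mul, M.mul]; ring
  stab := fun γ v h => by rw [L.stab γ v h, M.stab γ v h, one_mul]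

/-- The line bundle `P` is flat (numerically trivial, and even algebraically equivalent to zero up to
torsion): it is given by a unitary character of `Γ`, so that its first Chern form is zero. -/
def IsFlat {Γ : Subgroup (V ≃ᵃ[ℂ] V)} (P : LineBundle Γ) : Prop :=
  (∀ γ v w, P.e γ v = P.e γ w) ∧ ∀ γ v, ‖P.e γ v‖ = 1

end Pool.Agent.TH735.AQ
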