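import Pool.Agent.W594.SYZ.TQ6
import Pool.Agent.TH735.AQ.Defs

/-!
# The fibration given by the kernel of the Chern form
-/

set_option autoImplicit false

namespace Pool.Agent.TH735.AQ

open Pool.Agent.W594.SYZ2 Pool.Agent.W594.SYZ2.TQ

variable {V W : Type*} [NormedAddCommGroup V] [NormedSpace ℂ V] [FiniteDimensional ℂ V]
  [NormedAddCommGroup W] [NormedSpace ℂ W] [FiniteDimensional ℂ W]
  {Γ : Subgroup (V ≃ᵃ[ℂ] V)} {L : LineBundle Γ} {H : V → V → ℂ} {F : V → ℂ}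

/-- If `H^1(X, O_X) = 0` there are no invariant vectors. -/
theorem inv_vec (hΓ : IsTorusQuotient Γ) (h01 : HOneZero Γ) (x : V)
    (hx : ∀ γ ∈ Γ, γ.linear x = x) : x = 0 := by
  have := finite_Lin hΓ
  have : Fintype (Lin Γ) := Fintype.ofFinite _
  by_contra hne
  have h1 : ¬ ∀ φ : Module.Dual ℂ V, φ x = 0 := fun h =>
    hne ((Module.forall_dual_apply_eq_zero_iff ℂ x).1 h)
  push Not at h1
  obtain ⟨f, hf⟩ := h1
  let ℓ : V →ₛₗ[starRingEnd ℂ] ℂ :=
    { toFun := fun v => starRingEnd ℂ (∑ g : Lin Γ, f (g.1 v))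
      map_add' := fun v w => by
        simp only [map_add, Finset.sum_add_distrib]
      map_smul' := fun c v => by
        simp only [map_smul, smul_eq_mul, ← Finset.mul_sum, map_mul] }
  have hℓ : ℓ = 0 := by
    apply h01
    intro γ hγ w
    change starRingEnd ℂ (∑ g : Lin Γ, f (g.1 (γ.linear w))) = starRingEnd ℂ (∑ g : Lin Γ, f (g.1 w))
    congr 1
    let h : Lin Γ := ⟨γ.linear, γ, hγ, rfl⟩
    refine Fintype.sum_equiv (Equiv.mulRight h) _ _ ?_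
    intro g
    rfl
  have h2 : ℓ x = 0 := by rw [hℓ]; rfl
  have h3 : ∀ g : Lin Γ, g.1 x = x := by
    rintro ⟨g, γ, hγ, rfl⟩
    exact hx γ hγ
  have h4 : ℓ x = starRingEnd ℂ ((Fintype.card (Lin Γ) : ℂ) * f x) := by
    change starRingEnd ℂ (∑ g : Lin Γ, f (g.1 x)) = _
    rw [Finset.sum_congr rfl fun g _ => by rw [h3 g], Finset.sum_const, Finset.card_univ,
      nsmul_eq_mul]
  rw [h4, map_eq_zero, mul_eq_zero] at h2
  rcases h2 with h2 | h2
  · exact Fintype.card_ne_zero (by exact_mod_cast h2 : Fintype.card (Lin Γ) = 0)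
  · exact hf h2

/-- The value of the character on the sum over the group. -/
theorem chi_sum (hΓ : IsTorusQuotient Γ) (hH : IsHermitian H) (hF : IsPot L H F) {b : V}
    (hb : b ∈ latt Γ) (hbK : b ∈ ker hH) [Fintype (Lin Γ)] :
    (∑ g : Lin Γ, g.1 b) ∈ latt Γ ∧ (∑ g : Lin Γ, g.1 b) ∈ ker hH ∧
      chi L F (∑ g : Lin Γ, g.1 b) = chi L F b ^ Nat.card (Lin Γ) := by
  classical
  have hlin : ∀ g : Lin Γ, g.1 b ∈ latt Γ ∧ g.1 b ∈ ker hH ∧ chi L F (g.1 b) = chi L F b := by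
    rintro ⟨g, γ, hγ, rfl⟩
    exact ⟨latt_inv γ hγ hb, ker_inv hH hF ⟨γ, hγ⟩ hbK, chi_inv hH hF ⟨γ, hγ⟩ hb hbK⟩
  have key : ∀ s : Finset (Lin Γ), (∑ g ∈ s, g.1 b) ∈ latt Γ ∧ (∑ g ∈ s, g.1 b) ∈ ker hH ∧
      chi L F (∑ g ∈ s, g.1 b) = chi L F b ^ s.card := by
    intro s
    induction s using Finset.induction_on with
    | empty => exact ⟨by simp, by simp, by simp [chi_zero]⟩
    | insert g s hg ih =>
      rw [Finset.sum_insert hg, Finset.card_insert_of_notMem hg]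
      obtain ⟨h1, h2, h3⟩ := hlin g
      refine ⟨(latt Γ).add_mem h1 ih.1, (ker hH).add_mem h2 ih.2.1, ?_⟩
      rw [chi_add hH hF h1 h2 ih.1 ih.2.1, h3, ih.2.2, pow_succ, mul_comm]
  have h := key Finset.univ
  rwa [Finset.card_univ, ← Nat.card_eq_fintype_card] at h

/-- If `H^1(X, O_X) = 0` then the character is torsion. -/
theorem chi_pow (hΓ : IsTorusQuotient Γ) (h01 : HOneZero Γ) (hH : IsHermitian H)
    (hF : IsPot L H F) {b : V} (hb : b ∈ latt Γ) (hbK : b ∈ ker hH) :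
    chi L F b ^ Nat.card (Lin Γ) = 1 := by
  have := finite_Lin hΓ
  have : Fintype (Lin Γ) := Fintype.ofFinite _
  have hzero : ∑ g : Lin Γ, g.1 b = 0 := by
    apply inv_vec hΓ h01
    intro γ hγ
    rw [map_sum]
    let h : Lin Γ := ⟨γ.linear, γ, hγ, rfl⟩
    refine Fintype.sum_equiv (Equiv.mulLeft h) _ _ ?_
    intro g
    rfl
  have h1 := (chi_sum hΓ hH hF hb hbK).2.2
  rw [hzero, chi_zero] at h1
  exact h1.symm

/-- The data of the situation: `K = ker π` is the kernel of `H`, and the `N`-th power of the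
character on the lattice vectors in `K` is trivial. -/
structure Sit (Γ : Subgroup (V ≃ᵃ[ℂ] V)) (L : LineBundle Γ) (H : V → V → ℂ) (F : V → ℂ)
    (π : V →ₗ[ℂ] W) (hH : IsHermitian H) (N : ℕ) : Prop where
  tq : IsTorusQuotient Γ
  pot : IsPot L H F
  nef : IsNefForm H
  surj : Function.Surjective π
  ker_iff : ∀ v, π v = 0 ↔ v ∈ ker hH
  pos : 1 ≤ N
  root : ∀ b ∈ latt Γ, b ∈ ker hH → chi L F b ^ N = 1

section Fib

variable {π : V →ₗ[ℂ] W} {hH : IsHermitian H} {N : ℕ}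

omit [FiniteDimensional ℂ W] in
theorem Sit.pres (S : Sit Γ L H F π hH N) : ∀ γ ∈ Γ, ∀ v ∈ ker hH, γ.linear v ∈ ker hH :=
  fun γ hγ _ hv => ker_inv hH S.pot ⟨γ, hγ⟩ hv

/-- The exponent. -/
noncomputable def ex (Γ : Subgroup (V ≃ᵃ[ℂ] V)) (N : ℕ) : ℕ := Nat.card (Lin Γ) * N

omit [FiniteDimensional ℂ W] in
theorem Sit.card_pos (S : Sit Γ L H F π hH N) : 1 ≤ Nat.card (Lin Γ) := by
  have := finite_Lin S.tq
  exact Nat.card_pos

omit [FiniteDimensional ℂ W] in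
theorem Sit.ex_pos (S : Sit Γ L H F π hH N) : 1 ≤ ex Γ N :=
  Nat.mul_pos S.card_pos S.pos

omit [FiniteDimensional ℂ W] in
/-- The key finiteness: the normalised factor is a root of unity at fixed points modulo `K`. -/
theorem Sit.tw_pow (S : Sit Γ L H F π hH N) (γ : Γ)
    (v : V) (h : (γ : V ≃ᵃ[ℂ] V) v - v ∈ ker hH) :
    tw L F γ v ^ ex Γ N = 1 := by
  have hF := S.pot
  have := finite_Lin S.tq
  have key : ∀ n : ℕ, ((γ ^ n : Γ) : V ≃ᵃ[ℂ] V) v - v ∈ ker hH ∧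
      tw L F (γ ^ n) v = tw L F γ v ^ n := by
    intro n
    induction n with
    | zero =>
      constructor
      · rw [pow_zero]
        change v - v ∈ ker hH
        rw [sub_self]
        exact (ker hH).zero_mem
      · rw [pow_zero, pow_zero, tw_one]
    | succ n ih =>
      constructor
      · have h1 : ((γ ^ (n + 1) : Γ) : V ≃ᵃ[ℂ] V) v
            = (γ : V ≃ᵃ[ℂ] V) (((γ ^ n : Γ) : V ≃ᵃ[ℂ] V) v) := by
          rw [pow_succ']
          rfl
        have h2 : ((γ ^ n : Γ) : V ≃ᵃ[ℂ] V) v = v + (((γ ^ n : Γ) : V ≃ᵃ[ℂ] V) v - v) := by abel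
        rw [h1, h2, act_add, add_sub_right_comm]
        exact (ker hH).add_mem h (ker_inv hH hF γ ih.1)
      · have h2 : (γ : V ≃ᵃ[ℂ] V) v = v + ((γ : V ≃ᵃ[ℂ] V) v - v) := by abel
        rw [pow_succ, tw_mul, h2, tw_add_ker hH hF _ v h, ih.2, pow_succ]
  set M := Nat.card (Lin Γ) with hM
  have hlin : ∀ w, ((γ ^ M : Γ) : V ≃ᵃ[ℂ] V).linear w = w := by
    let g : Lin Γ := ⟨(γ : V ≃ᵃ[ℂ] V).linear, γ, γ.2, rfl⟩
    have hg : ∀ n : ℕ, ((g ^ n : Lin Γ) : V ≃ₗ[ℂ] V) = ((γ ^ n : Γ) : V ≃ᵃ[ℂ] V).linear := by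
      intro n
      have e1 : ((g ^ n : Lin Γ) : V ≃ₗ[ℂ] V) = (g : V ≃ₗ[ℂ] V) ^ n := rfl
      have e2 : ((γ ^ n : Γ) : V ≃ᵃ[ℂ] V) = (γ : V ≃ᵃ[ℂ] V) ^ n := rfl
      have e3 : ((γ : V ≃ᵃ[ℂ] V) ^ n).linear = AffineEquiv.linearHom ((γ : V ≃ᵃ[ℂ] V) ^ n) := rfl
      rw [e1, e2, e3, map_pow]
      rfl
    intro w
    rw [← hg M, hM, pow_card_eq_one']
    rfl
  obtain ⟨hb, hγ⟩ := eq_tr (γ ^ M) hlin
  obtain ⟨h1, h2⟩ := key M
  set b := ((γ ^ M : Γ) : V ≃ᵃ[ℂ] V) 0 with hbdef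
  have hbK : b ∈ ker hH := by
    have h3 : ((γ ^ M : Γ) : V ≃ᵃ[ℂ] V) v - v = b := by
      rw [act, hlin]
      abel
    rwa [h3] at h1
  rw [ex, ← hM, pow_mul, ← h2, hγ, tw_tr_ker hH hF hb hbK]
  exact S.root b hb hbK

omit [FiniteDimensional ℂ W] in
/-- Lattice vectors of the base: a multiple comes from a lattice vector. -/
theorem Sit.mem_latt (S : Sit Γ L H F π hH N) (w : W) (hw : w ∈ latt (Del Γ π)) :
    ∃ b ∈ latt Γ, π b = Nat.card (Lin Γ) • w := by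
  have := finite_Lin S.tq
  obtain ⟨γ, hγ, h⟩ := hw
  let g : Γ := ⟨γ, hγ⟩
  have hp : ∀ (n : ℕ) (v : V), π (((g ^ n : Γ) : V ≃ᵃ[ℂ] V) v) = n • w + π v := by
    intro n
    induction n with
    | zero => intro v; rw [pow_zero, zero_smul, zero_add]; rfl
    | succ n ih =>
      intro v
      have h1 : ((g ^ (n + 1) : Γ) : V ≃ᵃ[ℂ] V) v = ((g ^ n : Γ) : V ≃ᵃ[ℂ] V) (γ v) := by
        rw [pow_succ]
        rfl
      rw [h1, ih, ← h v]
      change n • w + (w + π v) = (n + 1) • w + π v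
      rw [succ_nsmul, add_assoc]
  set M := Nat.card (Lin Γ) with hM
  have hlin : ∀ w, ((g ^ M : Γ) : V ≃ᵃ[ℂ] V).linear w = w := by
    let g' : Lin Γ := ⟨γ.linear, γ, hγ, rfl⟩
    have hg : ∀ n : ℕ, ((g' ^ n : Lin Γ) : V ≃ₗ[ℂ] V) = ((g ^ n : Γ) : V ≃ᵃ[ℂ] V).linear := by
      intro n
      have e1 : ((g' ^ n : Lin Γ) : V ≃ₗ[ℂ] V) = (g' : V ≃ₗ[ℂ] V) ^ n := rfl
      have e2 : ((g ^ n : Γ) : V ≃ᵃ[ℂ] V) = γ ^ n := rfl
      have e3 : (γ ^ n).linear = AffineEquiv.linearHom (γ ^ n) := rfl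
      rw [e1, e2, e3, map_pow]
      rfl
    intro w
    rw [← hg M, hM, pow_card_eq_one']
    rfl
  obtain ⟨hb, -⟩ := eq_tr (g ^ M) hlin
  refine ⟨_, hb, ?_⟩
  rw [hp, map_zero, add_zero]

omit [FiniteDimensional ℂ V] [FiniteDimensional ℂ W] in
theorem latt_of_latt {b : V} (hb : b ∈ latt Γ) : π b ∈ latt (Del Γ π) := by
  refine ⟨_, hb, fun v => ?_⟩
  change π b + π v = π (b + v)
  rw [map_add]

theorem Sit.discrete (S : Sit Γ L H F π hH N) : DiscreteTopology (latt (Del Γ π)) := by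
  have : FiniteDimensional ℝ V := FiniteDimensional.complexToReal V
  have : FiniteDimensional ℝ W := FiniteDimensional.complexToReal W
  obtain ⟨s, hs⟩ := π.exists_rightInverse_of_surjective (LinearMap.range_eq_top.2 S.surj)
  have hs' : ∀ w, π (s w) = w := fun w => LinearMap.congr_fun hs w
  obtain ⟨t, ht, hspan, hli⟩ := exists_linearIndependent ℝ (latt Γ : Set V)
  have : Finite t := hli.finite
  -- the functionals
  let E : t → W →ₗ[ℝ] ℝ := fun j =>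
    { toFun := fun w => (H (s w) j).im
      map_add' := fun x y => by rw [map_add, hH.add_left, Complex.add_im]
      map_smul' := fun c x => by
        have h1 : c • x = (c : ℂ) • x := (Complex.coe_smul c x).symm
        rw [h1, map_smul, hH.smul_left, Complex.im_ofReal_mul, smul_eq_mul, RingHom.id_apply] }
  have hE : ∀ (j : t) (v : V), E j (π v) = (H v j).im := by
    intro j v
    change (H (s (π v)) j).im = (H v j).im
    have h1 : s (π v) - v ∈ ker hH := by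
      rw [← S.ker_iff, map_sub, hs', sub_self]
    have h2 := h1 j
    rw [h_sub_left hH, sub_eq_zero] at h2
    rw [h2]
  have hinj : ∀ w, (∀ j, E j w = 0) → w = 0 := by
    intro w hw
    rw [← hs' w, S.ker_iff]
    have h1 : ∀ u : V, (H (s w) u).im = 0 := by
      intro u
      have hu : u ∈ Submodule.span ℝ t := by rw [hspan, S.tq.span_top]; trivial
      induction hu using Submodule.span_induction with
      | mem x hx => exact hw ⟨x, hx⟩
      | zero => rw [h_zero_right hH, Complex.zero_im]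
      | add x y _ _ hx hy => rw [h_add_right hH, Complex.add_im, hx, hy, add_zero]
      | smul c x _ hx =>
        have h1 : c • x = (c : ℂ) • x := (Complex.coe_smul c x).symm
        rw [h1, h_smul_right hH, Complex.conj_ofReal, Complex.im_ofReal_mul, hx, mul_zero]
    intro u
    apply Complex.ext
    · have h2 := h1 (Complex.I • u)
      rw [h_smul_right hH] at h2
      simpa using h2
    · exact h1 u
  have hint : ∀ w ∈ latt (Del Γ π), ∀ j, ∃ n : ℤ, E j (Nat.card (Lin Γ) • w) = n := by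
    intro w hw j
    obtain ⟨b, hb, hbw⟩ := S.mem_latt w hw
    rw [← hbw, hE]
    exact im_int hH S.pot hb (ht j.2)
  choose n hn using hint
  let f : latt (Del Γ π) → t → ℤ := fun w j => n w.1 w.2 j
  have hf : Continuous f := by
    refine continuous_pi fun j => ?_
    rw [Int.isClosedEmbedding_coe_real.isEmbedding.continuous_iff]
    have h1 : (Int.cast : ℤ → ℝ) ∘ (fun w : latt (Del Γ π) => f w j)
        = fun w => E j (Nat.card (Lin Γ) • w.1) := by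
      funext w
      exact (hn w.1 w.2 j).symm
    rw [h1]
    exact (LinearMap.continuous_of_finiteDimensional (E j)).comp
      (continuous_subtype_val.const_smul (Nat.card (Lin Γ)))
  refine DiscreteTopology.of_continuous_injective hf ?_
  intro w w' hww
  apply Subtype.ext
  have hcard : (Nat.card (Lin Γ) : ℝ) ≠ 0 := by
    have := S.card_pos
    positivity
  have h0 : Nat.card (Lin Γ) • ((w : W) - w') = 0 := by
    apply hinj
    intro j
    have h1 : f w j = f w' j := congrFun hww j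
    rw [smul_sub, map_sub, hn w.1 w.2 j, hn w'.1 w'.2 j, sub_eq_zero]
    exact_mod_cast h1
  rw [← Nat.cast_smul_eq_nsmul ℝ, smul_eq_zero] at h0
  exact sub_eq_zero.1 (h0.resolve_left hcard)

theorem Sit.base (S : Sit Γ L H F π hH N) : IsTorusQuotient (Del Γ π) := by
  refine ⟨S.discrete, ?_, ?_⟩
  · have h1 : (π.restrictScalars ℝ) '' (latt Γ : Set V) ⊆ (latt (Del Γ π) : Set W) := by
      rintro _ ⟨b, hb, rfl⟩
      exact latt_of_latt hb
    apply top_le_iff.1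
    have h2 : Submodule.span ℝ ((π.restrictScalars ℝ) '' (latt Γ : Set V)) = ⊤ := by
      rw [Submodule.span_image, S.tq.span_top, Submodule.map_top, LinearMap.range_eq_top]
      exact S.surj
    rw [← h2]
    exact Submodule.span_mono h1
  · obtain ⟨s, hs⟩ := π.exists_rightInverse_of_surjective (LinearMap.range_eq_top.2 S.surj)
    have hs' : ∀ w, π (s w) = w := fun w => LinearMap.congr_fun hs w
    have h1 := (S.tq.finite_linear.image
      (fun A : V ≃ₗ[ℂ] V => π ∘ₗ (A : V →ₗ[ℂ] V) ∘ₗ s)).preimage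
      (LinearEquiv.toLinearMap_injective (R := ℂ) (M := W) (M₂ := W)).injOn
    refine h1.subset ?_
    rintro B ⟨δ, ⟨γ, hγ, h⟩, rfl⟩
    refine ⟨γ.linear, ⟨γ, hγ, rfl⟩, ?_⟩
    ext w
    change π (γ.linear (s w)) = δ.linear w
    have h2 := h (s w)
    rw [hs', act δ w, act γ (s w), map_add] at h2
    have h3 := h 0
    rw [map_zero] at h3
    rw [h3] at h2
    exact (add_right_cancel h2).symm

theorem Sit.isFibration (S : Sit Γ L H F π hH N) : IsFibration Γ (Del Γ π) π := by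
  refine ⟨S.surj, ?_, fun δ hδ => hδ, S.base⟩
  intro γ hγ
  refine exists_Del π S.surj ?_ γ hγ
  intro γ hγ v hv
  rw [S.ker_iff] at hv ⊢
  exact S.pres γ hγ v hv

omit [FiniteDimensional ℂ W] in
/-- The powers of the normalised factor for two elements of `Γ` inducing the same transformation. -/
theorem Sit.well (S : Sit Γ L H F π hH N) (γ γ' : Γ)
    (h : ∀ v, π ((γ : V ≃ᵃ[ℂ] V) v) = π ((γ' : V ≃ᵃ[ℂ] V) v)) (v v' : V)
    (hv : π v = π v') : tw L F γ v ^ ex Γ N = tw L F γ' v' ^ ex Γ N := by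
  have hK : v' - v ∈ ker hH := by rw [← S.ker_iff, map_sub, hv, sub_self]
  have h0 : tw L F γ' v' = tw L F γ' v := by
    have h1 : v' = v + (v' - v) := by abel
    rw [h1, tw_add_ker hH S.pot γ' v hK]
  rw [h0]
  -- `τ = γ⁻¹ γ'`
  have hpres : ∀ (γ : Γ) (u : V), π u = 0 → π ((γ : V ≃ᵃ[ℂ] V).linear u) = 0 := by
    intro γ u hu
    rw [S.ker_iff] at hu ⊢
    exact S.pres _ γ.2 u hu
  have hτ : ∀ u, π (((γ⁻¹ * γ' : Γ) : V ≃ᵃ[ℂ] V) u) = π u := by
    intro u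
    have h1 : ((γ⁻¹ * γ' : Γ) : V ≃ᵃ[ℂ] V) u
        = ((γ⁻¹ : Γ) : V ≃ᵃ[ℂ] V) ((γ' : V ≃ᵃ[ℂ] V) u) := rfl
    have h2 : (γ' : V ≃ᵃ[ℂ] V) u
        = (γ : V ≃ᵃ[ℂ] V) u + ((γ' : V ≃ᵃ[ℂ] V) u - (γ : V ≃ᵃ[ℂ] V) u) := by abel
    have h3 : ((γ⁻¹ : Γ) : V ≃ᵃ[ℂ] V) ((γ : V ≃ᵃ[ℂ] V) u) = u :=
      (γ : V ≃ᵃ[ℂ] V).symm_apply_apply u
    rw [h1, h2, act_add, h3, map_add, hpres, add_zero]
    rw [map_sub, h, sub_self]
  have hτK : ((γ⁻¹ * γ' : Γ) : V ≃ᵃ[ℂ] V) v - v ∈ ker hH := by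
    rw [← S.ker_iff, map_sub, hτ, sub_self]
  have h4 : γ' = γ * (γ⁻¹ * γ') := by rw [mul_inv_cancel_left]
  have h5 : ((γ⁻¹ * γ' : Γ) : V ≃ᵃ[ℂ] V) v
      = v + (((γ⁻¹ * γ' : Γ) : V ≃ᵃ[ℂ] V) v - v) := by abel
  rw [h4, tw_mul, mul_pow, S.tw_pow _ v hτK, mul_one, h5, tw_add_ker hH S.pot γ v hτK]

/-- The line bundle on the base. -/
noncomputable def bun (S : Sit Γ L H F π hH N) : LineBundle (Del Γ π) where
  e := fun δ w => tw L F (lift δ) (sec π w) ^ ex Γ N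
  holo := fun δ => by
    have h1 : Differentiable ℂ (fun w => sec π w) := by
      have : (fun w => sec π w) = LinearMap.toContinuousLinearMap (sec π) := rfl
      rw [this]
      exact ContinuousLinearMap.differentiable _
    exact ((tw_holo S.pot.1 (lift δ)).comp h1).pow _
  ne_zero := fun δ w => pow_ne_zero _ (tw_ne_zero _ _)
  mul := fun δ δ' w => by
    rw [S.well (lift (δ * δ')) (lift δ * lift δ') (by
      intro v
      rw [← lift_spec]
      change (δ : W ≃ᵃ[ℂ] W) ((δ' : W ≃ᵃ[ℂ] W) (π v))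
        = π ((lift δ : V ≃ᵃ[ℂ] V) ((lift δ' : V ≃ᵃ[ℂ] V) v))
      rw [lift_spec, lift_spec]) (sec π w) (sec π w) rfl, tw_mul, mul_pow]
    congr 1
    apply S.well _ _ (fun v => rfl)
    rw [← lift_spec, sec_spec S.surj, sec_spec S.surj]
  stab := fun δ w h => by
    apply S.tw_pow
    rw [← S.ker_iff, map_sub, ← lift_spec, sec_spec S.surj, h, sub_self]

theorem bun_e (S : Sit Γ L H F π hH N) (γ : Γ) (δ : Del Γ π)
    (h : ∀ v, (δ : W ≃ᵃ[ℂ] W) (π v) = π ((γ : V ≃ᵃ[ℂ] V) v)) (v : V) :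
    (bun S).e δ (π v) = tw L F γ v ^ ex Γ N := by
  change tw L F (lift δ) (sec π (π v)) ^ ex Γ N = _
  apply S.well
  · intro u
    rw [← lift_spec, h]
  · rw [sec_spec S.surj]

/-- The Chern form on the base. -/
noncomputable def HA (Γ : Subgroup (V ≃ᵃ[ℂ] V)) (H : V → V → ℂ) (π : V →ₗ[ℂ] W) (N : ℕ)
    (x y : W) : ℂ :=
  (ex Γ N : ℂ) * H (sec π x) (sec π y)

theorem HA_re (x y : W) :
    (HA Γ H π N x y).re = (ex Γ N : ℝ) * (H (sec π x) (sec π y)).re := by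
  have : ((ex Γ N : ℕ) : ℂ) = ((ex Γ N : ℝ) : ℂ) := by push_cast; rfl
  rw [HA, this, Complex.re_ofReal_mul]

theorem HA_chern (S : Sit Γ L H F π hH N) : IsChernForm (bun S) (HA Γ H π N) := by
  refine ⟨⟨?_, ?_, ?_⟩, fun _ => 0, differentiable_const _, ?_⟩
  · intro u v w
    simp only [HA]
    rw [map_add, hH.add_left, mul_add]
  · intro a v w
    simp only [HA]
    rw [map_smul, hH.smul_left]
    ring
  · intro v w
    simp only [HA]
    rw [map_mul, ← hH.symm, Complex.conj_natCast]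
  · intro δ w
    have h1 : (H (sec π ((δ : W ≃ᵃ[ℂ] W) w)) (sec π ((δ : W ≃ᵃ[ℂ] W) w))).re
        = (H ((lift δ : V ≃ᵃ[ℂ] V) (sec π w)) ((lift δ : V ≃ᵃ[ℂ] V) (sec π w))).re := by
      apply h_diag_congr hH
      rw [← S.ker_iff, map_sub, sec_spec S.surj, ← lift_spec, sec_spec S.surj, sub_self]
    have h3 : ‖(bun S).e δ w‖ ^ 2 = (‖tw L F (lift δ) (sec π w)‖ ^ 2) ^ ex Γ N := by
      change ‖tw L F (lift δ) (sec π w) ^ ex Γ N‖ ^ 2 = _
      rw [norm_pow, ← pow_mul, ← pow_mul, mul_comm]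
    rw [h3, tw_norm S.pot, ← Real.exp_nat_mul, HA_re, HA_re, h1]
    congr 1
    simp only [Complex.zero_re]
    ring

theorem HA_pos (S : Sit Γ L H F π hH N) : IsPositiveForm (HA Γ H π N) := by
  intro w hw
  rw [HA_re]
  have h3 : (0 : ℝ) < ex Γ N := by exact_mod_cast S.ex_pos
  apply mul_pos h3
  apply lt_of_le_of_ne (S.nef _)
  intro h
  apply hw
  rw [← sec_spec S.surj w, S.ker_iff]
  exact fun u => h_isotropic hH S.nef _ h.symm u

theorem Sit.induces (S : Sit Γ L H F π hH N) : Induces L (Del Γ π) π := by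
  refine ⟨ex Γ N, S.ex_pos, bun S, HA Γ H π N, HA_chern S, HA_pos S,
    fun v => Complex.exp (-(ex Γ N * F v)), (S.pot.1.const_mul (ex Γ N : ℂ)).neg.cexp,
    fun v => Complex.exp_ne_zero _, ?_⟩
  intro γ δ h v
  rw [bun_e S γ δ h v, tw, mul_pow, ← Complex.exp_nat_mul]
  change Complex.exp (-(ex Γ N * F ((γ : V ≃ᵃ[ℂ] V) v))) * L.e γ v ^ ex Γ N = _
  have h2 : Complex.exp (-(ex Γ N * F ((γ : V ≃ᵃ[ℂ] V) v)))
      = Complex.exp (ex Γ N * (F v - F ((γ : V ≃ᵃ[ℂ] V) v))) * Complex.exp (-(ex Γ N * F v)) := by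
    rw [← Complex.exp_add]
    congr 1
    ring
  rw [h2]
  ring

end Fib

/-- The linear map with kernel `ker H`. -/
theorem exists_sit (hΓ : IsTorusQuotient Γ) (hH : IsHermitian H) (hpot : IsPot L H F)
    (hn : IsNefForm H) {N : ℕ} (hN : 1 ≤ N)
    (hroot : ∀ b ∈ latt Γ, b ∈ ker hH → chi L F b ^ N = 1) :
    ∃ (n : ℕ) (Δ : Subgroup ((Fin n → ℂ) ≃ᵃ[ℂ] (Fin n → ℂ))) (π : V →ₗ[ℂ] (Fin n → ℂ)),
      (∀ v, π v = 0 ↔ ∀ w, H v w = 0) ∧ IsFibration Γ Δ π ∧ Induces L Δ π := by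
  let n := Module.finrank ℂ (V ⧸ ker hH)
  let e : (V ⧸ ker hH) ≃ₗ[ℂ] (Fin n → ℂ) := (Module.finBasis ℂ (V ⧸ ker hH)).equivFun
  let π : V →ₗ[ℂ] (Fin n → ℂ) := (e : (V ⧸ ker hH) →ₗ[ℂ] (Fin n → ℂ)) ∘ₗ (ker hH).mkQ
  have S : Sit Γ L H F π hH N := by
    refine ⟨hΓ, hpot, hn, ?_, ?_, hN, hroot⟩
    · exact e.surjective.comp (ker hH).mkQ_surjective
    · intro v
      change e ((ker hH).mkQ v) = 0 ↔ v ∈ ker hH
      rw [LinearEquiv.map_eq_zero_iff, Submodule.mkQ_apply, Submodule.Quotient.mk_eq_zero]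
  exact ⟨n, Del Γ π, π, S.ker_iff, S.isFibration, S.induces⟩

/-- Nef line bundles on torus quotients with `H^1(O) = 0` are semiample. -/
theorem semiample (hΓ : IsTorusQuotient Γ) (h01 : HOneZero Γ) (hc : IsChernForm L H)
    (hn : IsNefForm H) :
    ∃ (n : ℕ) (Δ : Subgroup ((Fin n → ℂ) ≃ᵃ[ℂ] (Fin n → ℂ))) (π : V →ₗ[ℂ] (Fin n → ℂ)),
      (∀ v, π v = 0 ↔ ∀ w, H v w = 0) ∧ IsFibration Γ Δ π ∧ Induces L Δ π := by
  obtain ⟨hH, F, hF, hFe⟩ := hc
  have := finite_Lin hΓ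
  exact exists_sit hΓ hH ⟨hF, hFe⟩ hn (Nat.card_pos : 0 < Nat.card (Lin Γ))
    fun b hb hbK => chi_pow hΓ h01 hH ⟨hF, hFe⟩ hb hbK

end Pool.Agent.TH735.AQ
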