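import Pool.Agent.TH735.AQ.Fib

/-!
# Flat line bundles
-/

set_option autoImplicit false

namespace Pool.Agent.TH735.AQ

open Pool.Agent.W594.SYZ2 Pool.Agent.W594.SYZ2.TQ

variable {V : Type*} [NormedAddCommGroup V] [NormedSpace ℂ V] [FiniteDimensional ℂ V]
  {Γ : Subgroup (V ≃ᵃ[ℂ] V)} {L : LineBundle Γ} {H : V → V → ℂ} {F : V → ℂ}

/-- The flat line bundle given by a real functional invariant under the linear parts. -/
noncomputable def flat (ℓ : V →ₗ[ℝ] ℝ) (hℓ : ∀ γ ∈ Γ, ∀ v, ℓ (γ.linear v) = ℓ v) :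
    LineBundle Γ where
  e := fun γ _ => Complex.exp ((ℓ ((γ : V ≃ᵃ[ℂ] V) 0) : ℂ) * Complex.I)
  holo := fun γ => differentiable_const _
  ne_zero := fun γ v => Complex.exp_ne_zero _
  mul := fun γ δ v => by
    have h1 : ((γ * δ : Γ) : V ≃ᵃ[ℂ] V) 0 = (γ : V ≃ᵃ[ℂ] V) ((δ : V ≃ᵃ[ℂ] V) 0) := rfl
    rw [h1, act (γ : V ≃ᵃ[ℂ] V) ((δ : V ≃ᵃ[ℂ] V) 0), map_add, hℓ _ γ.2, ← Complex.exp_add]
    congr 1
    push_cast
    ring
  stab := fun γ v h => by
    rw [act] at h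
    have h1 := congrArg ℓ h
    rw [map_add, hℓ _ γ.2, add_eq_left] at h1
    rw [h1, Complex.ofReal_zero, zero_mul, Complex.exp_zero]

omit [FiniteDimensional ℂ V] in
theorem flat_isFlat (ℓ : V →ₗ[ℝ] ℝ) (hℓ : ∀ γ ∈ Γ, ∀ v, ℓ (γ.linear v) = ℓ v) :
    IsFlat (flat ℓ hℓ) :=
  ⟨fun _ _ _ => rfl, fun _ _ => Complex.norm_exp_ofReal_mul_I _⟩

/-- A unitary character of a subgroup of the lattice is given by a real functional. -/
theorem exists_real (hΓ : IsTorusQuotient Γ) (S : AddSubgroup V) (hS : S ≤ latt Γ) (c : V → ℂ)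
    (hc : ∀ b ∈ S, ‖c b‖ = 1) (hadd : ∀ b ∈ S, ∀ b' ∈ S, c (b + b') = c b * c b') :
    ∃ ℓ : V →ₗ[ℝ] ℝ, ∀ b ∈ S, Complex.exp ((ℓ b : ℂ) * Complex.I) = c b := by
  have : FiniteDimensional ℝ V := FiniteDimensional.complexToReal V
  have : Fact (0 < 2 * Real.pi) := ⟨Real.two_pi_pos⟩
  let Λ : Submodule ℤ V := (latt Γ).toIntSubmodule
  have hd : DiscreteTopology Λ := hΓ.discrete
  have hz : IsZLattice ℝ Λ := ⟨hΓ.span_top⟩
  have : Module.Finite ℤ Λ := ZLattice.module_finite ℝ Λ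
  have : Module.Free ℤ Λ := ZLattice.module_free ℝ Λ
  let b := Module.Free.chooseBasis ℤ Λ
  let B := b.ofZLatticeBasis ℝ Λ
  have hne : ∀ b ∈ S, c b ≠ 0 := fun b hb h => by
    have := hc b hb
    rw [h, norm_zero] at this
    exact zero_ne_one this
  let g : S →+ AddCircle (2 * Real.pi) := AddMonoidHom.mk'
    (fun s => ((Complex.arg (c s.1) : ℝ) : AddCircle (2 * Real.pi))) (by
      rintro ⟨x, hx⟩ ⟨y, hy⟩
      change ((Complex.arg (c (x + y)) : ℝ) : Real.Angle)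
        = ((Complex.arg (c x) : ℝ) : Real.Angle) + ((Complex.arg (c y) : ℝ) : Real.Angle)
      rw [hadd x hx y hy, Complex.arg_mul_coe_angle (hne x hx) (hne y hy)])
  let f : S →+ Λ := AddMonoidHom.mk' (fun s => (⟨s.1, hS s.2⟩ : Λ)) (fun _ _ => rfl)
  have hf : Function.Injective f := by
    rintro ⟨x, hx⟩ ⟨y, hy⟩ h
    have h1 : x = y := congrArg (fun z : Λ => (z : V)) h
    exact Subtype.ext h1
  obtain ⟨ψ, hψ⟩ := (Module.Baer.of_divisible (AddCircle (2 * Real.pi))).extension_property_addMonoidHom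
    f hf g
  have hr : ∀ i, ∃ r : ℝ, (r : AddCircle (2 * Real.pi)) = ψ (b i) := fun i =>
    QuotientAddGroup.mk_surjective (ψ (b i))
  choose r hr using hr
  let ℓ : V →ₗ[ℝ] ℝ := B.constr ℝ r
  have hℓ : ∀ x : Λ, ((ℓ x : ℝ) : AddCircle (2 * Real.pi)) = ψ x := by
    let A1 : Λ →+ AddCircle (2 * Real.pi) :=
      (QuotientAddGroup.mk' (AddSubgroup.zmultiples (2 * Real.pi))).comp
        (ℓ.toAddMonoidHom.comp Λ.subtype.toAddMonoidHom)
    have h1 : A1.toIntLinearMap = ψ.toIntLinearMap := by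
      refine b.ext fun i => ?_
      change ((ℓ (b i) : ℝ) : AddCircle (2 * Real.pi)) = ψ (b i)
      rw [← hr]
      congr 1
      have h2 : ((b i : Λ) : V) = B i := (b.ofZLatticeBasis_apply ℝ Λ i).symm
      rw [h2]
      exact B.constr_basis ℝ r i
    intro x
    exact LinearMap.congr_fun h1 x
  refine ⟨ℓ, fun x hx => ?_⟩
  have h1 : ((ℓ x : ℝ) : AddCircle (2 * Real.pi)) = ((Complex.arg (c x) : ℝ) : AddCircle (2 * Real.pi)) := by
    have h2 := hℓ (f ⟨x, hx⟩)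
    have h3 : ψ (f ⟨x, hx⟩) = g ⟨x, hx⟩ := DFunLike.congr_fun hψ ⟨x, hx⟩
    rw [h3] at h2
    exact h2
  have h1' : ((ℓ x : ℝ) : Real.Angle) = ((Complex.arg (c x) : ℝ) : Real.Angle) := h1
  obtain ⟨k, hk⟩ := Real.Angle.angle_eq_iff_two_pi_dvd_sub.1 h1'
  have h4 : ((ℓ x : ℝ) : ℂ) * Complex.I
      = (Complex.arg (c x) : ℂ) * Complex.I + (k : ℂ) * (2 * Real.pi * Complex.I) := by
    have h5 : ℓ x = Complex.arg (c x) + 2 * Real.pi * k := by linarith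
    rw [h5]
    push_cast
    ring
  rw [h4, Complex.exp_add, Complex.exp_int_mul_two_pi_mul_I, mul_one]
  have h6 := Complex.norm_mul_exp_arg_mul_I (c x)
  rwa [hc x hx, Complex.ofReal_one, one_mul] at h6

/-- The `|G|`-th power of the character is given by a real functional invariant under the
linear parts. -/
theorem exists_inv_real (hΓ : IsTorusQuotient Γ) (hH : IsHermitian H) (hF : IsPot L H F) :
    ∃ ℓ : V →ₗ[ℝ] ℝ, (∀ γ ∈ Γ, ∀ v, ℓ (γ.linear v) = ℓ v) ∧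
      ∀ b ∈ latt Γ, b ∈ ker hH →
        Complex.exp ((ℓ b : ℂ) * Complex.I) = chi L F b ^ Nat.card (Lin Γ) := by
  have := finite_Lin hΓ
  have : Fintype (Lin Γ) := Fintype.ofFinite _
  obtain ⟨ℓ, hℓ⟩ := exists_real hΓ (latt Γ ⊓ (ker hH).toAddSubgroup) inf_le_left (chi L F)
    (by
      rintro b ⟨hb, hbK⟩
      have h1 := tw_norm hF (tr b hb) 0
      have hbK' : b ∈ ker hH := hbK
      rw [tr_apply, add_zero, hbK' b, h_zero_left hH, sub_self, mul_zero, Real.exp_zero,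
        ← chi_eq hb] at h1
      exact (pow_eq_one_iff_of_nonneg (norm_nonneg _) two_ne_zero).1 h1)
    (by
      rintro b ⟨hb, hbK⟩ b' ⟨hb', hbK'⟩
      exact chi_add hH hF hb hbK hb' hbK')
  let ℓ' : V →ₗ[ℝ] ℝ := ∑ g : Lin Γ, ℓ ∘ₗ ((g.1 : V →ₗ[ℂ] V).restrictScalars ℝ)
  have hℓ' : ∀ v, ℓ' v = ∑ g : Lin Γ, ℓ (g.1 v) := by
    intro v
    simp only [ℓ', LinearMap.sum_apply]
    rfl
  refine ⟨ℓ', ?_, ?_⟩
  · intro γ hγ v
    rw [hℓ', hℓ']
    let h : Lin Γ := ⟨γ.linear, γ, hγ, rfl⟩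
    refine Fintype.sum_equiv (Equiv.mulRight h) _ _ ?_
    intro g
    rfl
  · intro b hb hbK
    rw [hℓ', Complex.ofReal_sum, Finset.sum_mul, Complex.exp_sum]
    have h1 : ∀ g : Lin Γ, Complex.exp ((ℓ (g.1 b) : ℂ) * Complex.I) = chi L F b := by
      rintro ⟨g, γ, hγ, rfl⟩
      rw [← chi_inv hH hF ⟨γ, hγ⟩ hb hbK]
      exact hℓ _ ⟨latt_inv γ hγ hb, ker_inv hH hF ⟨γ, hγ⟩ hbK⟩
    rw [Finset.prod_congr rfl fun g _ => h1 g, Finset.prod_const, Finset.card_univ,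
      ← Nat.card_eq_fintype_card]

/-- Every nef line bundle on a torus quotient is numerically equivalent to a semiample one. -/
theorem numerical (hΓ : IsTorusQuotient Γ) (hc : IsChernForm L H) (hn : IsNefForm H) :
    ∃ (k : ℕ) (P : LineBundle Γ), 1 ≤ k ∧ IsFlat P ∧
      ∃ (n : ℕ) (Δ : Subgroup ((Fin n → ℂ) ≃ᵃ[ℂ] (Fin n → ℂ))) (π : V →ₗ[ℂ] (Fin n → ℂ)),
        (∀ v, π v = 0 ↔ ∀ w, H v w = 0) ∧ IsFibration Γ Δ π ∧
          Induces (tensor (L.pow k) P) Δ π := by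
  obtain ⟨hH, F, hF, hFe⟩ := hc
  have hpot : IsPot L H F := ⟨hF, hFe⟩
  have := finite_Lin hΓ
  obtain ⟨ℓ, hℓ, hχ⟩ := exists_inv_real hΓ hH hpot
  have hM : 0 < Nat.card (Lin Γ) := Nat.card_pos
  set M := Nat.card (Lin Γ) with hMdef
  have hℓ' : ∀ γ ∈ Γ, ∀ v, (-ℓ) (γ.linear v) = (-ℓ) v := fun γ hγ v => by
    rw [LinearMap.neg_apply, LinearMap.neg_apply, hℓ γ hγ]
  let P := flat (-ℓ) hℓ'
  let H' : V → V → ℂ := fun v w => (M : ℂ) * H v w
  let F' : V → ℂ := fun v => (M : ℂ) * F v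
  have hMr : ∀ z : ℂ, ((M : ℂ) * z).re = (M : ℝ) * z.re := fun z => by
    have : ((M : ℕ) : ℂ) = ((M : ℝ) : ℂ) := by push_cast; rfl
    rw [this, Complex.re_ofReal_mul]
  have hH' : IsHermitian H' := by
    refine ⟨fun u v w => ?_, fun a v w => ?_, fun v w => ?_⟩
    · simp only [H']
      rw [hH.add_left, mul_add]
    · simp only [H']
      rw [hH.smul_left]
      ring
    · simp only [H']
      rw [map_mul, ← hH.symm, Complex.conj_natCast]
  have hpot' : IsPot (tensor (L.pow M) P) H' F' := by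
    refine ⟨hF.const_mul _, fun γ v => ?_⟩
    have h1 : ‖(tensor (L.pow M) P).e γ v‖ ^ 2 = (‖L.e γ v‖ ^ 2) ^ M := by
      change ‖L.e γ v ^ M * P.e γ v‖ ^ 2 = _
      rw [norm_mul, (flat_isFlat (-ℓ) hℓ').2 γ v, mul_one, norm_pow, ← pow_mul, ← pow_mul,
        mul_comm]
    rw [h1, hFe, ← Real.exp_nat_mul]
    simp only [H', F', hMr]
    congr 1
    ring
  have hn' : IsNefForm H' := fun v => by
    simp only [H', hMr]
    exact mul_nonneg (Nat.cast_nonneg _) (hn v)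
  have hker : ∀ v, (∀ w, H' v w = 0) ↔ ∀ w, H v w = 0 := by
    intro v
    have hM0 : (M : ℂ) ≠ 0 := by exact_mod_cast hM.ne'
    refine forall_congr' fun w => ?_
    simp only [H']
    rw [mul_eq_zero]
    exact ⟨fun h => h.resolve_left hM0, Or.inr⟩
  have hroot : ∀ b ∈ latt Γ, b ∈ ker hH' → chi (tensor (L.pow M) P) F' b ^ 1 = 1 := by
    intro b hb hbK
    have hbK' : b ∈ ker hH := (hker b).1 hbK
    rw [pow_one, chi_eq hb, tw]
    have h1 : ((tr b hb : Γ) : V ≃ᵃ[ℂ] V) 0 = b := by rw [tr_apply, add_zero]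
    have h2 : (tensor (L.pow M) P).e (tr b hb) 0 = L.e (tr b hb) 0 ^ M * P.e (tr b hb) 0 := rfl
    have h3 : P.e (tr b hb) 0 = Complex.exp (((-ℓ) b : ℝ) * Complex.I) := by
      change Complex.exp (((-ℓ) (((tr b hb : Γ) : V ≃ᵃ[ℂ] V) 0) : ℂ) * Complex.I) = _
      rw [h1]
    have h4 : chi L F b ^ M = L.e (tr b hb) 0 ^ M * Complex.exp (F' 0 - F' b) := by
      rw [chi_eq hb, tw, h1, mul_pow, ← Complex.exp_nat_mul]
      simp only [F']
      congr 2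
      ring
    rw [h1, h2, h3, mul_right_comm, ← h4, ← hχ b hb hbK', ← Complex.exp_add, LinearMap.neg_apply]
    push_cast
    rw [neg_mul, add_neg_cancel, Complex.exp_zero]
  obtain ⟨n, Δ, π, h1, h2, h3⟩ := exists_sit hΓ hH' hpot' hn' le_rfl hroot
  exact ⟨M, P, hM, flat_isFlat _ _, n, Δ, π, fun v => (h1 v).trans (hker v), h2, h3⟩

end Pool.Agent.TH735.AQ
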