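import Pool.Agent.TH735.AQ.Defs
import Mathlib.LinearAlgebra.Determinant

/-!
# Log canonical divisors on quotients of complex tori
-/

set_option autoImplicit false

namespace Pool.Agent.TH735.AQ

open Pool.Agent.W594.SYZ2

/-- `v` lies on a mirror of `Γ`: some `γ ≠ 1` in `Γ` fixes each point of a complex affine hyperplane
through `v`. -/
def OnMirror {V : Type*} [AddCommGroup V] [Module ℂ V] (Γ : Subgroup (V ≃ᵃ[ℂ] V)) (v : V) : Prop :=
  ∃ γ ∈ Γ, γ ≠ 1 ∧ ∃ ℓ : V →ₗ[ℂ] ℂ, ℓ ≠ 0 ∧ ∀ w, ℓ w = ℓ v → γ w = w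

/-- The number of `γ` in `Γ` (`γ = 1` included) which fix each point of the hyperplane `ℓ = c`. -/
noncomputable def ramIndex {V : Type*} [AddCommGroup V] [Module ℂ V] (Γ : Subgroup (V ≃ᵃ[ℂ] V))
    (ℓ : V →ₗ[ℂ] ℂ) (c : ℂ) : ℕ := Nat.card {γ : V ≃ᵃ[ℂ] V // γ ∈ Γ ∧ ∀ w, ℓ w = c → γ w = w}

/-- The entire function `ρ` defines the ramification divisor `R` of `V → X = V / Γ`: its zeros are the
points on mirrors, and along each hyperplane `ℓ = c` it vanishes exactly to the order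
`ramIndex Γ ℓ c - 1`. -/
structure IsRamification {V : Type*} [NormedAddCommGroup V] [NormedSpace ℂ V]
    (Γ : Subgroup (V ≃ᵃ[ℂ] V)) (ρ : V → ℂ) : Prop where
  holo : Differentiable ℂ ρ
  zero_iff : ∀ v, ρ v = 0 ↔ OnMirror Γ v
  order : ∀ (ℓ : V →ₗ[ℂ] ℂ) (c : ℂ), ℓ ≠ 0 → ∃ k : V → ℂ, Differentiable ℂ k ∧
    (∀ w, ρ w = (ℓ w - c) ^ (ramIndex Γ ℓ c - 1) * k w) ∧ ∃ w, ℓ w = c ∧ k w ≠ 0

/-- `L` is the line bundle `O_X(m (K_X + B))`, where `ρ` defines the ramification divisor and the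
entire function `β` defines the pullback of the effective divisor `m B` to `V`. Here the local
section `g` of `L` is the `m`-canonical form `g ρ ^ m / β (dv) ^ m`, which is invariant under `Γ`. -/
def IsLogPluricanonical {V : Type*} [NormedAddCommGroup V] [NormedSpace ℂ V]
    {Γ : Subgroup (V ≃ᵃ[ℂ] V)} (L : LineBundle Γ) (m : ℕ) (ρ β : V → ℂ) : Prop :=
  ∀ (γ : Γ) (v : V), β ((γ : V ≃ᵃ[ℂ] V) v) * ρ v ^ m =
    L.e γ v * LinearMap.det ((γ : V ≃ᵃ[ℂ] V).linear : V →ₗ[ℂ] V) ^ m * β v *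
      ρ ((γ : V ≃ᵃ[ℂ] V) v) ^ m

end Pool.Agent.TH735.AQ
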