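import Pool.Agent.TH735.AQ.Crit
import Pool.Agent.TH735.AQ.MirDefs

/-!
# Line bundles with a meromorphic section with poles along the branch divisor
-/

set_option autoImplicit false

namespace Pool.Agent.TH735.AQ

open Pool.Agent.W594.SYZ2 Pool.Agent.W594.SYZ2.TQ

variable {V : Type*} [NormedAddCommGroup V] [NormedSpace ℂ V] [FiniteDimensional ℂ V]
  {Γ : Subgroup (V ≃ᵃ[ℂ] V)} {L : LineBundle Γ} {H : V → V → ℂ} {F : V → ℂ}

/-- The linear parts which act trivially on `V / K`. -/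
def NK (Γ : Subgroup (V ≃ᵃ[ℂ] V)) (K : Submodule ℂ V) : Subgroup (Lin Γ) where
  carrier := {g | ∀ v, g.1 v - v ∈ K}
  mul_mem' := by
    intro g h hg hh v
    have h1 : ((g * h : Lin Γ) : V ≃ₗ[ℂ] V) v = g.1 (h.1 v) := rfl
    rw [h1, ← sub_add_sub_cancel (g.1 (h.1 v)) (h.1 v) v]
    exact K.add_mem (hg _) (hh _)
  one_mem' := by
    intro v
    have h1 : ((1 : Lin Γ) : V ≃ₗ[ℂ] V) v = v := rfl
    rw [h1, sub_self]
    exact K.zero_mem
  inv_mem' := by
    intro g hg v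
    have h1 : g.1 (((g⁻¹ : Lin Γ) : V ≃ₗ[ℂ] V) v) = v := by
      have h2 : ((g * g⁻¹ : Lin Γ) : V ≃ₗ[ℂ] V) v = v := by rw [mul_inv_cancel]; rfl
      exact h2
    have h3 := hg (((g⁻¹ : Lin Γ) : V ≃ₗ[ℂ] V) v)
    rw [h1] at h3
    rw [← neg_sub]
    exact K.neg_mem h3

/-- The vectors of `K` fixed by these. -/
def KN (Γ : Subgroup (V ≃ᵃ[ℂ] V)) (K : Submodule ℂ V) : Submodule ℂ V where
  carrier := {x | x ∈ K ∧ ∀ g ∈ NK Γ K, g.1 x = x}
  add_mem' := by
    rintro x y ⟨hx, hx'⟩ ⟨hy, hy'⟩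
    exact ⟨K.add_mem hx hy, fun g hg => by rw [map_add, hx' g hg, hy' g hg]⟩
  zero_mem' := ⟨K.zero_mem, fun g _ => map_zero _⟩
  smul_mem' := by
    rintro c x ⟨hx, hx'⟩
    exact ⟨K.smul_mem c hx, fun g hg => by rw [map_smul, hx' g hg]⟩

/-- The value of the character on a partial sum over the group. -/
theorem chi_sum' (hH : IsHermitian H) (hF : IsPot L H F) {b : V}
    (hb : b ∈ latt Γ) (hbK : b ∈ ker hH) (s : Finset (Lin Γ)) :
    (∑ g ∈ s, g.1 b) ∈ latt Γ ∧ (∑ g ∈ s, g.1 b) ∈ ker hH ∧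
      chi L F (∑ g ∈ s, g.1 b) = chi L F b ^ s.card := by
  classical
  have hlin : ∀ g : Lin Γ, g.1 b ∈ latt Γ ∧ g.1 b ∈ ker hH ∧ chi L F (g.1 b) = chi L F b := by
    rintro ⟨g, γ, hγ, rfl⟩
    exact ⟨latt_inv γ hγ hb, ker_inv hH hF ⟨γ, hγ⟩ hbK, chi_inv hH hF ⟨γ, hγ⟩ hb hbK⟩
  induction s using Finset.induction_on with
  | empty => exact ⟨by simp, by simp, by simp [chi_zero]⟩
  | insert g s hg ih =>
    rw [Finset.sum_insert hg, Finset.card_insert_of_notMem hg]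
    obtain ⟨h1, h2, h3⟩ := hlin g
    refine ⟨(latt Γ).add_mem h1 ih.1, (ker hH).add_mem h2 ih.2.1, ?_⟩
    rw [chi_add hH hF h1 h2 ih.1 ih.2.1, h3, ih.2.2, pow_succ, mul_comm]

omit [FiniteDimensional ℂ V] in
/-- The sum over `NK` is fixed by `NK`. -/
theorem sum_fixed (K : Submodule ℂ V) [Fintype (Lin Γ)] [DecidablePred (· ∈ NK Γ K)] (b : V)
    (g : Lin Γ) (hg : g ∈ NK Γ K) :
    g.1 (∑ h ∈ Finset.univ.filter (· ∈ NK Γ K), h.1 b)
      = ∑ h ∈ Finset.univ.filter (· ∈ NK Γ K), h.1 b := by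
  rw [map_sum]
  refine Finset.sum_bij (fun h _ => g * h) ?_ ?_ ?_ ?_
  · intro h hh
    rw [Finset.mem_filter] at hh ⊢
    exact ⟨Finset.mem_univ _, (NK Γ K).mul_mem hg hh.2⟩
  · intro h _ h' _ heq
    exact mul_left_cancel heq
  · intro h hh
    rw [Finset.mem_filter] at hh
    exact ⟨g⁻¹ * h, by
      rw [Finset.mem_filter]
      exact ⟨Finset.mem_univ _, (NK Γ K).mul_mem ((NK Γ K).inv_mem hg) hh.2⟩, by
      rw [mul_inv_cancel_left]⟩
  · intro h _
    rfl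

/-- Translations by vectors fixed by `NK` preserve the complement of the mirrors. -/
theorem not_onMirror (hH : IsHermitian H) (hF : IsPot L H F) {v₀ x : V}
    (hv : ¬ OnMirror Γ v₀) (hx : x ∈ KN Γ (ker hH)) : ¬ OnMirror Γ (v₀ + x) := by
  rintro ⟨γ, hγ, hne, ℓ, hℓ, hfix⟩
  have hℓx : ℓ x = 0 := by
    by_contra hℓx
    apply hne
    have h0 : γ (v₀ + x) = v₀ + x := hfix _ rfl
    have hlin : ∀ w, ℓ w = 0 → γ.linear w = w := by
      intro w hw
      have h1 : γ (v₀ + x + w) = v₀ + x + w := hfix _ (by rw [map_add, hw, add_zero])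
      have h2 : γ (v₀ + x + w) = γ.linear w + γ (v₀ + x) := by
        rw [act γ (v₀ + x + w), act γ (v₀ + x), map_add]
        abel
      rw [h2, h0, add_comm] at h1
      exact add_left_cancel h1
    have hdec : ∀ v, γ.linear v - v = (ℓ v / ℓ x) • (γ.linear x - x) := by
      intro v
      have h1 := hlin (v - (ℓ v / ℓ x) • x) (by
        rw [map_sub, map_smul, smul_eq_mul, div_mul_cancel₀ _ hℓx, sub_self])
      rw [map_sub, map_smul] at h1
      rw [smul_sub]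
      have h2 : γ.linear v = v - (ℓ v / ℓ x) • x + (ℓ v / ℓ x) • γ.linear x := by
        rw [← h1]
        abel
      rw [h2]
      abel
    let g : Lin Γ := ⟨γ.linear, γ, hγ, rfl⟩
    have hgN : g ∈ NK Γ (ker hH) := by
      intro v
      change γ.linear v - v ∈ ker hH
      rw [hdec v]
      exact (ker hH).smul_mem _ ((ker hH).sub_mem (ker_inv hH hF ⟨γ, hγ⟩ hx.1) hx.1)
    have hgx : γ.linear x = x := hx.2 g hgN
    have hid : ∀ v, γ.linear v = v := by
      intro v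
      have h1 := hdec v
      rw [hgx, sub_self, smul_zero, sub_eq_zero] at h1
      exact h1
    apply AffineEquiv.ext
    intro v
    have h1 : γ v = γ.linear (v - (v₀ + x)) + γ (v₀ + x) := by
      rw [act γ v, act γ (v₀ + x), map_sub]
      abel
    rw [h1, hid, h0, sub_add_cancel]
    rfl
  exact hv ⟨γ, hγ, hne, ℓ, hℓ, fun w hw => hfix w (by rw [hw, map_add, hℓx, add_zero])⟩

theorem semiample_of_mero (hΓ : IsTorusQuotient Γ) (hc : IsChernForm L H) (hn : IsNefForm H)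
    {θ s : V → ℂ} (hθ : Differentiable ℂ θ) (hs : Differentiable ℂ s)
    (hne : ∃ v, θ v ≠ 0 ∧ ¬ OnMirror Γ v) (hzero : ∀ v, s v = 0 → OnMirror Γ v)
    (heq : ∀ (b : V) (hb : b ∈ latt Γ) (v : V),
      θ (b + v) * s v = L.e (tr b hb) v * θ v * s (b + v)) :
    ∃ (n : ℕ) (Δ : Subgroup ((Fin n → ℂ) ≃ᵃ[ℂ] (Fin n → ℂ))) (π : V →ₗ[ℂ] (Fin n → ℂ)),
      (∀ v, π v = 0 ↔ ∀ w, H v w = 0) ∧ IsFibration Γ Δ π ∧ Induces L Δ π := by
  classical
  obtain ⟨k, P, -, -, n, Δ, π, hker, hfib, -⟩ := numerical hΓ hc hn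
  obtain ⟨hH, F, hF, hFe⟩ := hc
  have hpot : IsPot L H F := ⟨hF, hFe⟩
  obtain ⟨v₀, hv₀, hmir⟩ := hne
  have hv₀' : s v₀ ≠ 0 := fun h => hmir (hzero v₀ h)
  have : FiniteDimensional ℝ V := FiniteDimensional.complexToReal V
  have := finite_Lin hΓ
  have : Fintype (Lin Γ) := Fintype.ofFinite _
  -- the lattice vectors in `K` span `K`
  let T : AddSubgroup (Fin n → ℂ) := (latt Γ).map π.toAddMonoidHom
  have hT : (T : Set (Fin n → ℂ)) ⊆ (latt Δ : Set (Fin n → ℂ)) := by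
    rintro _ ⟨b, hb, rfl⟩
    obtain ⟨δ, hδ, h⟩ := hfib.maps _ (mem_latt.1 hb)
    change AffineEquiv.constVAdd ℂ (Fin n → ℂ) (π b) ∈ Δ
    have h1 : AffineEquiv.constVAdd ℂ (Fin n → ℂ) (π b) = δ := by
      apply AffineEquiv.ext
      intro w
      obtain ⟨v, rfl⟩ := hfib.surj w
      rw [h v]
      change π b + π v = π (b + v)
      rw [map_add]
    rw [h1]
    exact hδ
  have hTd : DiscreteTopology T := by
    have h1 : DiscreteTopology (latt Δ : Set (Fin n → ℂ)) := hfib.base.discrete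
    exact DiscreteTopology.of_subset h1 hT
  have hsp := span_ker (V := V) (W := Fin n → ℂ) (latt Γ) hΓ.discrete hΓ.span_top T hTd
    (π.restrictScalars ℝ) hfib.surj (fun w => Iff.rfl)
  let K : Submodule ℂ V := KN Γ (ker hH)
  let Ns : Finset (Lin Γ) := Finset.univ.filter (· ∈ NK Γ (ker hH))
  have hNs : 1 ≤ Ns.card := Finset.card_pos.2 ⟨1, by
    rw [Finset.mem_filter]
    exact ⟨Finset.mem_univ _, (NK Γ (ker hH)).one_mem⟩⟩
  let A : V →ₗ[ℝ] V := ∑ g ∈ Ns, ((g.1 : V →ₗ[ℂ] V).restrictScalars ℝ)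
  have hA : ∀ v, A v = ∑ g ∈ Ns, g.1 v := by
    intro v
    simp only [A, LinearMap.sum_apply]
    rfl
  have hAK : ∀ b ∈ latt Γ, b ∈ ker hH → A b ∈ latt Γ ∧ A b ∈ K := by
    intro b hb hbK
    rw [hA]
    obtain ⟨h1, h2, -⟩ := chi_sum' hH hpot hb hbK Ns
    exact ⟨h1, h2, fun g hg => sum_fixed (ker hH) b g hg⟩
  have hspanV : ∀ x ∈ K, x ∈ Submodule.span ℝ {b | b ∈ latt Γ ∧ b ∈ K} := by
    intro x hx
    have h1 : x ∈ Submodule.span ℝ {b | b ∈ latt Γ ∧ π b = 0} := by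
      have h2 : x ∈ LinearMap.ker (π.restrictScalars ℝ) := (hker x).2 hx.1
      rw [← hsp] at h2
      exact h2
    have h2 : A x ∈ Submodule.span ℝ {b | b ∈ latt Γ ∧ b ∈ K} := by
      have h3 : A x ∈ (Submodule.span ℝ {b | b ∈ latt Γ ∧ π b = 0}).map A :=
        Submodule.mem_map_of_mem h1
      rw [Submodule.map_span] at h3
      refine Submodule.span_mono ?_ h3
      rintro _ ⟨b, ⟨hb, hb0⟩, rfl⟩
      exact hAK b hb ((hker b).1 hb0)
    have h3 : A x = (Ns.card : ℝ) • x := by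
      rw [hA, Finset.sum_congr rfl fun g hg => hx.2 g (Finset.mem_filter.1 hg).2,
        Finset.sum_const, ← Nat.cast_smul_eq_nsmul ℝ]
    have h4 : x = ((Ns.card : ℝ)⁻¹) • A x := by
      rw [h3, smul_smul, inv_mul_cancel₀ (by positivity), one_smul]
    rw [h4]
    exact Submodule.smul_mem _ _ h2
  let SK : AddSubgroup K := (latt Γ).comap K.subtype.toAddMonoidHom
  have hmap : (Submodule.span ℝ (SK : Set K)).map (K.subtype.restrictScalars ℝ)
      = Submodule.span ℝ {b | b ∈ latt Γ ∧ b ∈ K} := by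
    rw [Submodule.map_span]
    congr 1
    ext x
    constructor
    · rintro ⟨y, hy, rfl⟩
      exact ⟨hy, y.2⟩
    · rintro ⟨hx, hx0⟩
      exact ⟨⟨x, hx0⟩, hx, rfl⟩
  have hspan : Submodule.span ℝ (SK : Set K) = ⊤ := by
    rw [eq_top_iff]
    rintro ⟨x, hx⟩ -
    have h1 := hspanV x hx
    rw [← hmap] at h1
    obtain ⟨y, hy, hyx⟩ := h1
    have h2 : y = ⟨x, hx⟩ := Subtype.ext hyx
    rwa [← h2]
  have : ProperSpace K := FiniteDimensional.proper ℂ K
  have hsne : ∀ x : K, s (v₀ + x) ≠ 0 := fun x h =>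
    not_onMirror hH hpot hmir x.2 (hzero _ h)
  let u : K → ℂ := fun x => θ (v₀ + x) / s (v₀ + x) * Complex.exp (-F (v₀ + x))
  have hu : Differentiable ℂ u := by
    have h2 : Differentiable ℂ fun x : K => v₀ + (x : V) := K.subtypeL.differentiable.const_add v₀
    have h3 : Differentiable ℂ fun x : K => θ (v₀ + x) := hθ.comp h2
    have h4 : Differentiable ℂ fun x : K => (s (v₀ + x))⁻¹ :=
      Differentiable.inv (h := fun x : K => s (v₀ + x)) (hs.comp h2) hsne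
    have h5 : Differentiable ℂ fun x : K => Complex.exp (-F (v₀ + x)) :=
      (Differentiable.neg (f := fun x : K => F (v₀ + x)) (hF.comp h2)).cexp
    have h6 : u = fun x : K => θ (v₀ + x) * (s (v₀ + x))⁻¹ * Complex.exp (-F (v₀ + x)) := by
      funext x
      simp only [u, div_eq_mul_inv]
    rw [h6]
    exact (h3.mul h4).mul h5
  have hueq : ∀ (b : K) (_ : (b : V) ∈ latt Γ) (x : K), u (b + x) = chi L F b * u x := by
    intro b hb x
    have h1 := heq (b : V) hb (v₀ + x)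
    have h2 := tw_tr_ker hH hpot hb b.2.1 (v₀ + (x : V))
    have hs1 : s ((b : V) + (v₀ + x)) ≠ 0 := by
      have := hsne (b + x)
      rwa [Submodule.coe_add, add_left_comm] at this
    have hs2 := hsne x
    have h3 : θ ((b : V) + (v₀ + x)) / s ((b : V) + (v₀ + x))
        = L.e (tr (b : V) hb) (v₀ + x) * (θ (v₀ + x) / s (v₀ + x)) := by
      rw [div_eq_iff hs1, ← mul_div_assoc, div_mul_eq_mul_div, eq_div_iff hs2]
      exact h1
    simp only [u]
    rw [← h2, tw, tr_apply, Submodule.coe_add, add_left_comm v₀ (b : V) (x : V), h3]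
    have h4 : Complex.exp (-F ((b : V) + (v₀ + x)))
        = Complex.exp (F (v₀ + x) - F ((b : V) + (v₀ + x))) * Complex.exp (-F (v₀ + x)) := by
      rw [← Complex.exp_add]
      congr 1
      ring
    rw [h4]
    ring
  obtain ⟨C, hC⟩ := cobounded SK hspan
  have hbd : Bornology.IsBounded (Set.range u) := by
    have hK : IsCompact (Metric.closedBall (0 : K) C) := isCompact_closedBall _ _
    obtain ⟨R, hR⟩ := (isBounded_iff_forall_norm_le.1 (hK.image hu.continuous).isBounded)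
    rw [isBounded_iff_forall_norm_le]
    refine ⟨R, ?_⟩
    rintro _ ⟨v, rfl⟩
    obtain ⟨b, hb, hbC⟩ := hC v
    have hb' : (b : V) ∈ latt Γ := hb
    have h1 : ‖u (b + v)‖ = ‖u v‖ := by
      rw [hueq b hb' v, norm_mul, chi_norm hH hpot hb' b.2.1, one_mul]
    rw [← h1]
    exact hR _ ⟨b + v, by rwa [mem_closedBall_zero_iff], rfl⟩
  have hone : ∀ b ∈ latt Γ, b ∈ K → chi L F b = 1 := by
    intro b hb hbK
    have h1 := hueq ⟨b, hbK⟩ hb 0
    have h2 : u (⟨b, hbK⟩ + 0) = u 0 := hu.apply_eq_apply_of_bounded hbd _ _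
    rw [h2] at h1
    have h3 : u 0 ≠ 0 := by
      simp only [u, Submodule.coe_zero, add_zero]
      exact mul_ne_zero (div_ne_zero hv₀ hv₀') (Complex.exp_ne_zero _)
    exact (mul_right_cancel₀ h3 ((one_mul _).trans h1)).symm
  have hroot : ∀ b ∈ latt Γ, b ∈ ker hH → chi L F b ^ Ns.card = 1 := by
    intro b hb hbK
    obtain ⟨h1, h2⟩ := hAK b hb hbK
    have h3 := hone _ h1 h2
    rw [hA] at h3
    rw [← (chi_sum' hH hpot hb hbK Ns).2.2]
    exact h3
  exact exists_sit hΓ hH hpot hn hNs hroot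

omit [FiniteDimensional ℂ V] in
/-- Two entire functions which are not identically zero have a common non-zero. -/
theorem exists_common {f g : V → ℂ} (hf : Differentiable ℂ f) (hg : Differentiable ℂ g)
    (hf0 : ∃ v, f v ≠ 0) (hg0 : ∃ v, g v ≠ 0) : ∃ v, f v ≠ 0 ∧ g v ≠ 0 := by
  obtain ⟨a, ha⟩ := hf0
  obtain ⟨b, hb⟩ := hg0
  by_contra hcon
  push Not at hcon
  have hline : Differentiable ℂ fun z : ℂ => a + z • (b - a) :=
    (differentiable_id.smul_const (b - a)).const_add a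
  have h1 : AnalyticOnNhd ℂ (fun z : ℂ => f (a + z • (b - a))) Set.univ :=
    fun z _ => (hf.comp hline).analyticAt z
  have h2 : AnalyticOnNhd ℂ (fun z : ℂ => g (a + z • (b - a))) Set.univ :=
    fun z _ => (hg.comp hline).analyticAt z
  rcases AnalyticOnNhd.eq_zero_or_eq_zero_of_mul_eq_zero h1 h2 (fun z _ => by
    by_cases h3 : f (a + z • (b - a)) = 0
    · simp only [h3, zero_mul]
    · simp only [hcon _ h3, mul_zero]) isPreconnected_univ with h | h
  · apply ha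
    have := h 0 (Set.mem_univ _)
    simpa using this
  · apply hb
    have := h 1 (Set.mem_univ _)
    simpa using this

theorem ram_ne_zero {ρ : V → ℂ} (hρ : IsRamification Γ ρ) : ∃ v, ρ v ≠ 0 := by
  by_cases h : ∃ ℓ : V →ₗ[ℂ] ℂ, ℓ ≠ 0
  · obtain ⟨ℓ, hℓ⟩ := h
    obtain ⟨k, hk, hk1, w, -, hw⟩ := hρ.order ℓ 0 hℓ
    have h1 : Differentiable ℂ fun v => ℓ v := by
      have h2 : (fun v => ℓ v) = LinearMap.toContinuousLinearMap ℓ := rfl
      rw [h2]
      exact ContinuousLinearMap.differentiable _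
    have h2 : ∃ v, ℓ v ≠ 0 := by
      by_contra hcon
      push Not at hcon
      exact hℓ (LinearMap.ext hcon)
    obtain ⟨v, hv, hv'⟩ := exists_common h1 hk h2 ⟨w, hw⟩
    refine ⟨v, ?_⟩
    rw [hk1 v, sub_zero]
    exact mul_ne_zero (pow_ne_zero _ hv) hv'
  · refine ⟨0, fun h0 => ?_⟩
    obtain ⟨_, _, _, ℓ, hℓ, _⟩ := (hρ.zero_iff 0).1 h0
    exact h ⟨ℓ, hℓ⟩

/-- Abundance for pairs on torus quotients. -/
theorem abundance (hΓ : IsTorusQuotient Γ) (hc : IsChernForm L H) {ρ β : V → ℂ} {m : ℕ}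
    (hρ : IsRamification Γ ρ) (hβ : Differentiable ℂ β)
    (hβ0 : ∃ v, β v ≠ 0) (hL : IsLogPluricanonical L m ρ β) (hn : IsNefForm H) :
    ∃ (n : ℕ) (Δ : Subgroup ((Fin n → ℂ) ≃ᵃ[ℂ] (Fin n → ℂ))) (π : V →ₗ[ℂ] (Fin n → ℂ)),
      (∀ v, π v = 0 ↔ ∀ w, H v w = 0) ∧ IsFibration Γ Δ π ∧ Induces L Δ π := by
  obtain ⟨v, hv, hv'⟩ := exists_common hβ hρ.holo hβ0 (ram_ne_zero hρ)
  refine semiample_of_mero hΓ hc hn hβ (hρ.holo.pow m) ⟨v, hv, fun h => hv' ((hρ.zero_iff v).2 h)⟩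
    (fun w hw => (hρ.zero_iff w).1 (eq_zero_of_pow_eq_zero hw)) ?_
  intro b hb w
  have h1 := hL (tr b hb) w
  have h2 : LinearMap.det (((tr b hb : Γ) : V ≃ᵃ[ℂ] V).linear : V →ₗ[ℂ] V) = 1 := by
    have h3 : (((tr b hb : Γ) : V ≃ᵃ[ℂ] V).linear : V →ₗ[ℂ] V) = LinearMap.id := by
      ext w
      exact tr_linear b hb w
    rw [h3, LinearMap.det_id]
  rw [h2, one_pow, mul_one, tr_apply] at h1
  exact h1

end Pool.Agent.TH735.AQ
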