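import Pool.Agent.TH735.AQ.Flat

/-!
# The condition `H^1(O) = 0` is necessary
-/

set_option autoImplicit false

namespace Pool.Agent.TH735.AQ

open Pool.Agent.W594.SYZ2 Pool.Agent.W594.SYZ2.TQ

variable {V W : Type*} [NormedAddCommGroup V] [NormedSpace ℂ V] [FiniteDimensional ℂ V]
  [NormedAddCommGroup W] [NormedSpace ℂ W] [FiniteDimensional ℂ W]
  {Γ : Subgroup (V ≃ᵃ[ℂ] V)}

theorem affine_differentiable (γ : V ≃ᵃ[ℂ] V) : Differentiable ℂ (fun v => γ v) := by
  have : (fun v => γ v) = fun v =>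
      LinearMap.toContinuousLinearMap (γ.linear : V →ₗ[ℂ] V) v + γ 0 := by
    funext v
    exact act _ v
  rw [this]
  exact (ContinuousLinearMap.differentiable _).add_const _

/-- The trivial line bundle written as a coboundary. -/
noncomputable def cob (Γ : Subgroup (V ≃ᵃ[ℂ] V)) (h : V → ℂ) (hh : Differentiable ℂ h)
    (hne : ∀ v, h v ≠ 0) : LineBundle Γ where
  e := fun γ v => h ((γ : V ≃ᵃ[ℂ] V) v) / h v
  holo := fun γ => by
    have h1 : Differentiable ℂ fun v => h ((γ : V ≃ᵃ[ℂ] V) v) :=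
      hh.comp (affine_differentiable _)
    simp only [div_eq_mul_inv]
    exact h1.mul (hh.inv hne)
  ne_zero := fun γ v => div_ne_zero (hne _) (hne _)
  mul := fun γ δ v => by
    have h1 : ((γ * δ : Γ) : V ≃ᵃ[ℂ] V) v = (γ : V ≃ᵃ[ℂ] V) ((δ : V ≃ᵃ[ℂ] V) v) := rfl
    rw [h1, div_mul_div_cancel₀ (hne _)]
  stab := fun γ v hv => by rw [hv, div_self (hne _)]

/-- A flat line bundle which induces a fibration is torsion, and the base is a point. -/
theorem torsion_of_induces (hΓ : IsTorusQuotient Γ) {P : LineBundle Γ} (hP : IsFlat P)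
    {Δ : Subgroup (W ≃ᵃ[ℂ] W)} {π : V →ₗ[ℂ] W} (hfib : IsFibration Γ Δ π)
    (hind : Induces P Δ π) : ∃ m : ℕ, 1 ≤ m ∧ ∀ b (hb : b ∈ latt Γ), P.e (tr b hb) 0 ^ m = 1 := by
  have : ProperSpace V := FiniteDimensional.proper ℂ V
  obtain ⟨m, hm, A, HA, ⟨hHA, G, hG, hGe⟩, hpos, h, hh, hne, heq⟩ := hind
  -- the Chern form of the pullback of `A` is zero
  have hπ : ∀ v, π v = 0 := by
    let Q := cob Γ h hh hne
    let H : V → V → ℂ := fun v w => HA (π v) (π w)
    have hH : IsHermitian H := by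
      refine ⟨fun u v w => ?_, fun a v w => ?_, fun v w => ?_⟩
      · simp only [H]
        rw [map_add, hHA.add_left]
      · simp only [H]
        rw [map_smul, hHA.smul_left]
      · exact hHA.symm _ _
    have hGπ : Differentiable ℂ fun v => G (π v) := by
      have h1 : (fun v => π v) = LinearMap.toContinuousLinearMap π := rfl
      have h2 : Differentiable ℂ fun v => π v := by
        rw [h1]
        exact ContinuousLinearMap.differentiable _
      exact hG.comp h2
    have hpot : IsPot Q H (fun v => G (π v)) := by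
      refine ⟨hGπ, fun γ v => ?_⟩
      obtain ⟨δ, hδ, hδγ⟩ := hfib.maps γ γ.2
      have h1 := heq γ ⟨δ, hδ⟩ hδγ v
      have h2 : ‖Q.e γ v‖ = ‖A.e ⟨δ, hδ⟩ (π v)‖ := by
        change ‖h ((γ : V ≃ᵃ[ℂ] V) v) / h v‖ = _
        have h3 : ‖(P.pow m).e γ v‖ = 1 := by
          change ‖P.e γ v ^ m‖ = 1
          rw [norm_pow, hP.2, one_pow]
        have h4 := congrArg norm h1
        rw [norm_mul, norm_mul, h3, mul_one] at h4
        rw [norm_div, h4, mul_div_assoc, div_self (norm_ne_zero_iff.2 (hne v)), mul_one]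
      rw [h2, hGe ⟨δ, hδ⟩ (π v)]
      have h5 : (δ : W ≃ᵃ[ℂ] W) (π v) = π ((γ : V ≃ᵃ[ℂ] V) v) := hδγ v
      change Real.exp (Real.pi * (HA (δ (π v)) (δ (π v))).re + 2 * (G (δ (π v))).re
        - (Real.pi * (HA (π v) (π v)).re + 2 * (G (π v)).re)) = _
      rw [h5]
    have hnef : IsNefForm H := fun v => by
      by_cases hv : π v = 0
      · simp only [H]
        rw [hv, h_zero_left hHA]
        simp
      · exact (hpos _ hv).le
    have htriv : (Q.pow 1).IsTrivial := by
      refine ⟨h, ⟨hh, fun γ v => ?_⟩, hne⟩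
      change h _ = (h _ / h v) ^ 1 * h v
      rw [pow_one, div_mul_cancel₀ _ (hne v)]
    have h0 := zero_of_torsion hΓ hH hpot hnef 1 le_rfl htriv
    intro v
    by_contra hv
    have h1 := hpos _ hv
    have h2 : HA (π v) (π v) = 0 := h0 v v
    rw [h2] at h1
    simp at h1
  -- so `|h|` is periodic
  have hone : ∀ b (hb : b ∈ latt Γ) v, h (b + v) * P.e (tr b hb) 0 ^ m = h v := by
    intro b hb v
    have h1 := heq (tr b hb) 1 (fun v => by
      rw [hπ ((tr b hb : V ≃ᵃ[ℂ] V) v), hπ v]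
      rfl) v
    rw [A.stab 1 (π v) rfl, one_mul, tr_apply] at h1
    change h (b + v) * P.e (tr b hb) v ^ m = h v at h1
    rwa [hP.1 _ v 0] at h1
  obtain ⟨C, hC⟩ := cobounded (latt Γ) hΓ.span_top
  have hbd : Bornology.IsBounded (Set.range h) := by
    have hK : IsCompact (Metric.closedBall (0 : V) C) := isCompact_closedBall _ _
    obtain ⟨R, hR⟩ := (isBounded_iff_forall_norm_le.1 (hK.image hh.continuous).isBounded)
    rw [isBounded_iff_forall_norm_le]
    refine ⟨R, ?_⟩
    rintro _ ⟨v, rfl⟩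
    obtain ⟨b, hb, hbC⟩ := hC v
    have h1 := congrArg norm (hone b hb v)
    rw [norm_mul, norm_pow, hP.2, one_pow, mul_one] at h1
    rw [← h1]
    exact hR _ ⟨b + v, by rwa [mem_closedBall_zero_iff], rfl⟩
  refine ⟨m, hm, fun b hb => ?_⟩
  have h1 := hone b hb 0
  have h2 : h (b + 0) = h 0 := hh.apply_eq_apply_of_bounded hbd _ _
  rw [h2] at h1
  exact mul_left_cancel₀ (hne 0) (h1.trans (mul_one _).symm)

omit [FiniteDimensional ℂ V] in
/-- The Chern form of a flat line bundle is zero. -/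
theorem chern_of_flat {P : LineBundle Γ} (hP : IsFlat P) : IsChernForm P (fun _ _ => 0) := by
  refine ⟨⟨fun u v w => (add_zero _).symm, fun a v w => (mul_zero _).symm, fun v w =>
    (map_zero _).symm⟩, fun _ => 0, differentiable_const _, fun γ v => ?_⟩
  rw [hP.2]
  simp

/-- If `H^1(X, O_X) ≠ 0` there is a flat line bundle which is not semiample. -/
theorem exists_flat (hΓ : IsTorusQuotient Γ) (h01 : ¬ HOneZero Γ) :
    ∃ P : LineBundle Γ, IsFlat P ∧
      ∀ (n : ℕ) (Δ : Subgroup ((Fin n → ℂ) ≃ᵃ[ℂ] (Fin n → ℂ))) (π : V →ₗ[ℂ] (Fin n → ℂ)),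
        IsFibration Γ Δ π → ¬ Induces P Δ π := by
  unfold HOneZero at h01
  push Not at h01
  obtain ⟨ℓ, hℓ, hne⟩ := h01
  let lam : V →ₗ[ℝ] ℝ :=
    { toFun := fun v => (ℓ v).re
      map_add' := fun v w => by rw [map_add, Complex.add_re]
      map_smul' := fun c v => by
        have h1 : c • v = (c : ℂ) • v := (Complex.coe_smul c v).symm
        rw [h1, map_smulₛₗ, Complex.conj_ofReal, smul_eq_mul, Complex.re_ofReal_mul,
          RingHom.id_apply, smul_eq_mul] }
  have hlam : ∃ b ∈ latt Γ, lam b ≠ 0 := by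
    by_contra hcon
    push Not at hcon
    apply hne
    have h1 : ∀ v, lam v = 0 := by
      intro v
      have hv : v ∈ Submodule.span ℝ (latt Γ : Set V) := by rw [hΓ.span_top]; trivial
      induction hv using Submodule.span_induction with
      | mem x hx => exact hcon x hx
      | zero => exact map_zero _
      | add x y _ _ hx hy => rw [map_add, hx, hy, add_zero]
      | smul c x _ hx => rw [map_smul, hx, smul_zero]
    ext v
    apply Complex.ext
    · exact h1 v
    · have h2 := h1 (Complex.I • v)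
      change (ℓ (Complex.I • v)).re = 0 at h2
      rw [map_smulₛₗ, Complex.conj_I, smul_eq_mul] at h2
      simpa using h2
  obtain ⟨b₀, hb₀, hb₀ne⟩ := hlam
  let t : ℝ := 2 * Real.pi * Real.sqrt 2 / lam b₀
  have hinv : ∀ γ ∈ Γ, ∀ v, (t • lam) (γ.linear v) = (t • lam) v := by
    intro γ hγ v
    rw [LinearMap.smul_apply, LinearMap.smul_apply]
    congr 1
    change (ℓ (γ.linear v)).re = (ℓ v).re
    rw [hℓ γ hγ v]
  refine ⟨flat (t • lam) hinv, flat_isFlat _ _, fun n Δ π hfib hind => ?_⟩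
  obtain ⟨m, hm, hroot⟩ := torsion_of_induces hΓ (flat_isFlat (t • lam) hinv) hfib hind
  have h1 := hroot b₀ hb₀
  have h2 : ((tr b₀ hb₀ : Γ) : V ≃ᵃ[ℂ] V) 0 = b₀ := by rw [tr_apply, add_zero]
  have h3 : (flat (t • lam) hinv).e (tr b₀ hb₀) 0
      = Complex.exp ((2 * Real.pi * Real.sqrt 2 : ℝ) * Complex.I) := by
    change Complex.exp ((((t • lam) (((tr b₀ hb₀ : Γ) : V ≃ᵃ[ℂ] V) 0) : ℝ) : ℂ) * Complex.I) = _
    rw [h2, LinearMap.smul_apply, smul_eq_mul]
    congr 3
    simp only [t]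
    field_simp
  rw [h3, ← Complex.exp_nat_mul, Complex.exp_eq_one_iff] at h1
  obtain ⟨k, hk⟩ := h1
  have h4 : (m : ℂ) * (Real.sqrt 2 : ℂ) = k := by
    have h5 : (2 * Real.pi * Complex.I : ℂ) ≠ 0 := Complex.two_pi_I_ne_zero
    apply mul_right_cancel₀ h5
    rw [← hk]
    push_cast
    ring
  have h6 : (m : ℝ) * Real.sqrt 2 = k := by exact_mod_cast h4
  have h7 : Irrational ((m : ℝ) * Real.sqrt 2) := by
    exact irrational_sqrt_two.natCast_mul (by omega)
  exact h7 ⟨k, by rw [h6]; push_cast; rfl⟩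

end Pool.Agent.TH735.AQ
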