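import Pool.Agent.TH735.AQ.Nec

/-!
# Uniqueness of the Chern form and of the fibration
-/

set_option autoImplicit false

namespace Pool.Agent.TH735.AQ

open Pool.Agent.W594.SYZ2 Pool.Agent.W594.SYZ2.TQ

variable {V W : Type*} [NormedAddCommGroup V] [NormedSpace ℂ V] [FiniteDimensional ℂ V]
  [NormedAddCommGroup W] [NormedSpace ℂ W] [FiniteDimensional ℂ W]
  {Γ : Subgroup (V ≃ᵃ[ℂ] V)}

theorem diag_continuous {D : V → V → ℂ} (hH : IsHermitian D) :
    Continuous fun v => (D v v).re := by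
  have : FiniteDimensional ℝ V := FiniteDimensional.complexToReal V
  let B : V →ₗ[ℝ] V →ₗ[ℝ] ℝ := LinearMap.mk₂ ℝ (fun x y => (D x y).re)
    (fun x x' y => by rw [hH.add_left, Complex.add_re])
    (fun c x y => by
      have : c • x = (c : ℂ) • x := (Complex.coe_smul c x).symm
      rw [this, hH.smul_left, Complex.re_ofReal_mul, smul_eq_mul])
    (fun x y y' => by rw [h_add_right hH, Complex.add_re])
    (fun c x y => by
      have : c • y = (c : ℂ) • y := (Complex.coe_smul c y).symm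
      rw [this, h_smul_right hH, Complex.conj_ofReal, Complex.re_ofReal_mul, smul_eq_mul])
  have h1 : (fun v => (D v v).re) = fun v => B v v := rfl
  rw [h1]
  let B' : V →L[ℝ] V →L[ℝ] ℝ := LinearMap.toContinuousLinearMap
    ((LinearMap.toContinuousLinearMap : (V →ₗ[ℝ] ℝ) ≃ₗ[ℝ] (V →L[ℝ] ℝ)).toLinearMap ∘ₗ B)
  have h2 : (fun v => B v v) = fun v => B' v v := rfl
  rw [h2]
  exact (B'.continuous).clm_apply continuous_id

/-- `F` is a potential for the coboundary of `h` and the form `D`. -/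
def IsCobPot (Γ : Subgroup (V ≃ᵃ[ℂ] V)) (h : V → ℂ) (D : V → V → ℂ) (F : V → ℂ) : Prop :=
  ∀ (γ : Γ) (v : V), ‖h ((γ : V ≃ᵃ[ℂ] V) v)‖ ^ 2 =
    Real.exp (Real.pi * (D ((γ : V ≃ᵃ[ℂ] V) v) ((γ : V ≃ᵃ[ℂ] V) v)).re
      + 2 * (F ((γ : V ≃ᵃ[ℂ] V) v)).re - (Real.pi * (D v v).re + 2 * (F v).re)) * ‖h v‖ ^ 2

theorem diag_nonpos (hΓ : IsTorusQuotient Γ) {h : V → ℂ} (hh : Differentiable ℂ h)
    (hne : ∀ v, h v ≠ 0) {D : V → V → ℂ} (hD : IsHermitian D) {F : V → ℂ}
    (hF : Differentiable ℂ F) (hpot : IsCobPot Γ h D F) (x : V) : (D x x).re ≤ 0 := by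
  have : ProperSpace V := FiniteDimensional.proper ℂ V
  by_contra hneg
  push Not at hneg
  set a := (D x x).re with ha
  let u : V → ℂ := fun v => h v * Complex.exp (-F v)
  have hu : Differentiable ℂ u := hh.mul hF.neg.cexp
  have hune : ∀ v, u v ≠ 0 := fun v => mul_ne_zero (hne v) (Complex.exp_ne_zero _)
  let φ : V → ℝ := fun v => ‖u v‖ ^ 2 * Real.exp (-(Real.pi * (D v v).re))
  have hun : ∀ v, ‖u v‖ ^ 2 = ‖h v‖ ^ 2 * Real.exp (-(2 * (F v).re)) := by
    intro v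
    simp only [u]
    rw [norm_mul, Complex.norm_exp, mul_pow, ← Real.exp_nat_mul]
    congr 2
    simp
  have hper : ∀ (γ : Γ) (v : V), φ ((γ : V ≃ᵃ[ℂ] V) v) = φ v := by
    intro γ v
    simp only [φ]
    have e : ∀ a n b c : ℝ, a * n * b * c = n * (a * b * c) := fun a n b c => by ring
    rw [hun, hun, hpot γ v, e, ← Real.exp_add, ← Real.exp_add, mul_assoc (‖h v‖ ^ 2),
      ← Real.exp_add]
    congr 2
    ring
  have hφc : Continuous φ := by
    refine ((hu.continuous.norm).pow 2).mul (Real.continuous_exp.comp ?_)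
    exact ((diag_continuous hD).const_mul Real.pi).neg
  have hφpos : ∀ v, 0 < φ v := fun v =>
    mul_pos (pow_pos (norm_pos_iff.2 (hune v)) 2) (Real.exp_pos _)
  obtain ⟨C, hC⟩ := cobounded (latt Γ) hΓ.span_top
  have hC0 : 0 ≤ C := by
    obtain ⟨b, -, hb⟩ := hC 0
    exact (norm_nonneg _).trans hb
  have hK : IsCompact (Metric.closedBall (0 : V) C) := isCompact_closedBall _ _
  obtain ⟨x0, -, hx0⟩ := hK.exists_isMinOn ⟨0, Metric.mem_closedBall_self hC0⟩ hφc.continuousOn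
  have hmin : ∀ v, φ x0 ≤ φ v := by
    intro v
    obtain ⟨b, hb, hbC⟩ := hC v
    rw [← hper (tr b hb) v, tr_apply]
    exact hx0 (by rwa [mem_closedBall_zero_iff])
  set c := φ x0 with hc
  have hcpos : 0 < c := hφpos x0
  -- the restriction to the line through `x`
  have hlow : ∀ z : ℂ, c * Real.exp (Real.pi * (‖z‖ ^ 2 * a)) ≤ ‖u (z • x)‖ ^ 2 := by
    intro z
    have h1 := mul_le_mul_of_nonneg_right (hmin (z • x))
      (Real.exp_pos (Real.pi * (D (z • x) (z • x)).re)).le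
    have h2 : φ (z • x) * Real.exp (Real.pi * (D (z • x) (z • x)).re) = ‖u (z • x)‖ ^ 2 := by
      simp only [φ]
      rw [mul_assoc, ← Real.exp_add, neg_add_cancel, Real.exp_zero, mul_one]
    rw [h2, h_diag_smul hD] at h1
    exact h1
  have hlow' : ∀ z : ℂ, c ≤ ‖u (z • x)‖ ^ 2 := by
    intro z
    have h1 : 1 ≤ Real.exp (Real.pi * (‖z‖ ^ 2 * a)) := by
      apply Real.one_le_exp
      have := Real.pi_pos
      positivity
    have h2 := hlow z
    nlinarith
  have hconst : ∀ z : ℂ, ‖u (z • x)‖ ^ 2 = ‖u 0‖ ^ 2 := by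
    intro z
    have hline : Differentiable ℂ fun z : ℂ => z • x := differentiable_id.smul_const x
    have hinv : Differentiable ℂ fun z : ℂ => (u (z • x))⁻¹ :=
      (hu.comp hline).inv fun z => hune _
    have hb : Bornology.IsBounded (Set.range fun z : ℂ => (u (z • x))⁻¹) := by
      rw [isBounded_iff_forall_norm_le]
      refine ⟨c⁻¹ + 1, ?_⟩
      rintro _ ⟨z, rfl⟩
      have h1 : ‖(u (z • x))⁻¹‖ ^ 2 ≤ c⁻¹ := by
        rw [norm_inv, inv_pow]
        exact inv_anti₀ hcpos (hlow' z)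
      have h2 : 0 < c⁻¹ := inv_pos.2 hcpos
      nlinarith [norm_nonneg ((u (z • x))⁻¹), sq_nonneg (‖(u (z • x))⁻¹‖ - 1)]
    have h1 := hinv.apply_eq_apply_of_bounded hb z 0
    have h2 : u (z • x) = u ((0 : ℂ) • x) := inv_injective h1
    rw [h2, zero_smul]
  have hk : 0 < Real.pi * a := mul_pos Real.pi_pos hneg
  obtain ⟨t, ht⟩ := exists_nat_gt (‖u 0‖ ^ 2 / (c * (Real.pi * a)))
  have h1 := hlow (((t + 1 : ℕ) : ℂ))
  rw [hconst, Complex.norm_natCast] at h1
  have h3 : Real.pi * (((t + 1 : ℕ) : ℝ) ^ 2 * a) = ((t + 1 : ℕ) : ℝ) ^ 2 * (Real.pi * a) := by ring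
  rw [h3] at h1
  have h2 := Real.add_one_le_exp (((t + 1 : ℕ) : ℝ) ^ 2 * (Real.pi * a))
  rw [div_lt_iff₀ (mul_pos hcpos hk)] at ht
  set k := Real.pi * a with hkdef
  have h4 : (t : ℝ) ≤ ((t + 1 : ℕ) : ℝ) ^ 2 := by
    push_cast
    have : (0 : ℝ) ≤ t := Nat.cast_nonneg t
    nlinarith
  have h5 : (t : ℝ) * k ≤ ((t + 1 : ℕ) : ℝ) ^ 2 * k := mul_le_mul_of_nonneg_right h4 hk.le
  have h6 : c * ((t : ℝ) * k) < c * Real.exp (((t + 1 : ℕ) : ℝ) ^ 2 * k) := by
    apply mul_lt_mul_of_pos_left _ hcpos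
    linarith
  have h7 : (t : ℝ) * (c * k) = c * ((t : ℝ) * k) := by ring
  linarith

/-- The Chern form of a trivial line bundle is zero. -/
theorem cob_zero (hΓ : IsTorusQuotient Γ) {h : V → ℂ} (hh : Differentiable ℂ h)
    (hne : ∀ v, h v ≠ 0) {D : V → V → ℂ} (hD : IsHermitian D) {F : V → ℂ}
    (hF : Differentiable ℂ F) (hpot : IsCobPot Γ h D F) (v w : V) : D v w = 0 := by
  have h1 := diag_nonpos hΓ hh hne hD hF hpot
  have hD' : IsHermitian (fun v w => -D v w) := by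
    refine ⟨fun u v w => ?_, fun a v w => ?_, fun v w => ?_⟩
    · rw [hD.add_left]; ring
    · rw [hD.smul_left]; ring
    · rw [hD.symm v w, map_neg]
  have hpot' : IsCobPot Γ (fun v => (h v)⁻¹) (fun v w => -D v w) (fun v => -F v) := by
    intro γ v
    rw [norm_inv, norm_inv, inv_pow, inv_pow, hpot γ v, mul_inv, ← Real.exp_neg]
    congr 2
    simp only [Complex.neg_re]
    ring
  have h2 := diag_nonpos hΓ (hh.inv hne) (fun v => inv_ne_zero (hne v)) hD' hF.neg hpot'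
  have h3 : ∀ v, (D v v).re = 0 := by
    intro v
    have := h2 v
    simp only [Complex.neg_re] at this
    linarith [h1 v]
  exact h_isotropic hD (fun v => (h3 v).ge) v (h3 v) w

/-- A line bundle which induces a fibration is nef, and the fibration is given by the kernel of
its Chern form. -/
theorem nef_of_induces (hΓ : IsTorusQuotient Γ) {M : LineBundle Γ} {H : V → V → ℂ}
    (hc : IsChernForm M H) {Δ : Subgroup (W ≃ᵃ[ℂ] W)} {π : V →ₗ[ℂ] W}
    (hfib : IsFibration Γ Δ π) (hind : Induces M Δ π) :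
    IsNefForm H ∧ ∀ v, π v = 0 ↔ ∀ w, H v w = 0 := by
  obtain ⟨hH, F, hF, hFe⟩ := hc
  obtain ⟨m, hm, A, HA, ⟨hHA, G, hG, hGe⟩, hpos, h, hh, hne, heq⟩ := hind
  have hm0 : (m : ℂ) ≠ 0 := by
    have : m ≠ 0 := by omega
    exact_mod_cast this
  have hmr : ∀ z : ℂ, ((m : ℂ) * z).re = (m : ℝ) * z.re := fun z => by
    have : ((m : ℕ) : ℂ) = ((m : ℝ) : ℂ) := by push_cast; rfl
    rw [this, Complex.re_ofReal_mul]
  let D : V → V → ℂ := fun v w => HA (π v) (π w) - m * H v w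
  have hD : IsHermitian D := by
    refine ⟨fun u v w => ?_, fun a v w => ?_, fun v w => ?_⟩
    · simp only [D]
      rw [map_add, hHA.add_left, hH.add_left]
      ring
    · simp only [D]
      rw [map_smul, hHA.smul_left, hH.smul_left]
      ring
    · simp only [D]
      rw [map_sub, map_mul, ← hHA.symm, ← hH.symm, Complex.conj_natCast]
  have hGπ : Differentiable ℂ fun v => G (π v) := by
    have h1 : (fun v => π v) = LinearMap.toContinuousLinearMap π := rfl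
    have h2 : Differentiable ℂ fun v => π v := by
      rw [h1]
      exact ContinuousLinearMap.differentiable _
    exact hG.comp h2
  have hpot : IsCobPot Γ h D (fun v => G (π v) - m * F v) := by
    intro γ v
    obtain ⟨δ, hδ, hδγ⟩ := hfib.maps γ γ.2
    have h1 := congrArg norm (heq γ ⟨δ, hδ⟩ hδγ v)
    rw [norm_mul, norm_mul] at h1
    have h5 : (δ : W ≃ᵃ[ℂ] W) (π v) = π ((γ : V ≃ᵃ[ℂ] V) v) := hδγ v
    have h2 := hGe ⟨δ, hδ⟩ (π v)
    change ‖A.e ⟨δ, hδ⟩ (π v)‖ ^ 2 = Real.exp (Real.pi * (HA (δ (π v)) (δ (π v))).re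
      + 2 * (G (δ (π v))).re - (Real.pi * (HA (π v) (π v)).re + 2 * (G (π v)).re)) at h2
    rw [h5] at h2
    have h3 : ‖(M.pow m).e γ v‖ ^ 2 = Real.exp (m * (Real.pi * (H ((γ : V ≃ᵃ[ℂ] V) v)
        ((γ : V ≃ᵃ[ℂ] V) v)).re + 2 * (F ((γ : V ≃ᵃ[ℂ] V) v)).re
          - (Real.pi * (H v v).re + 2 * (F v).re))) := by
      change ‖M.e γ v ^ m‖ ^ 2 = _
      rw [norm_pow, ← pow_mul, mul_comm m 2, pow_mul, hFe, ← Real.exp_nat_mul]
    have h4 : ‖h ((γ : V ≃ᵃ[ℂ] V) v)‖ ^ 2 * ‖(M.pow m).e γ v‖ ^ 2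
        = ‖A.e ⟨δ, hδ⟩ (π v)‖ ^ 2 * ‖h v‖ ^ 2 := by
      rw [← mul_pow, h1, mul_pow]
    rw [h2, h3] at h4
    have h6 := Real.exp_ne_zero (m * (Real.pi * (H ((γ : V ≃ᵃ[ℂ] V) v)
        ((γ : V ≃ᵃ[ℂ] V) v)).re + 2 * (F ((γ : V ≃ᵃ[ℂ] V) v)).re
          - (Real.pi * (H v v).re + 2 * (F v).re)))
    apply mul_right_cancel₀ h6
    rw [h4, mul_right_comm, ← Real.exp_add]
    congr 2
    simp only [D, Complex.sub_re, hmr]
    ring
  have h0 := cob_zero hΓ hh hne hD (hGπ.sub (hF.const_mul _)) hpot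
  have h1 : ∀ v w, HA (π v) (π w) = m * H v w := fun v w => sub_eq_zero.1 (h0 v w)
  have hmpos : (0 : ℝ) < m := by exact_mod_cast hm
  constructor
  · intro v
    have h2 : (0 : ℝ) ≤ m * (H v v).re := by
      rw [← hmr, ← h1]
      by_cases hv : π v = 0
      · rw [hv, h_zero_left hHA]
        simp
      · exact (hpos _ hv).le
    exact nonneg_of_mul_nonneg_right h2 hmpos
  · intro v
    constructor
    · intro hv w
      have h2 := h1 v w
      rw [hv, h_zero_left hHA] at h2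
      exact (mul_eq_zero.1 h2.symm).resolve_left hm0
    · intro hv
      by_contra hne'
      have h2 := hpos _ hne'
      rw [h1 v v, hv v, mul_zero] at h2
      simp at h2

end Pool.Agent.TH735.AQ
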